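import Mathlib

/-!
# Places above a branch point: statements

(helper623)  Let `A` be algebraically closed of characteristic zero, `M` a field containing `A(x, y)`
with `c y² = ∏ (x - θ i)`, `r` a branch point and `η i = (x - θ i) / (θ r - θ i)` for `i ≠ r`.  Let
`δ i j` (`i, j ≠ r`) be square roots of the `η i η j` with `δ i j δ j l = η j δ i l`.  Then there is a
place of `M` over `A` with `x = θ r` and `δ i j = 1` for all `i, j`.
-/

open Polynomial

namespace Pool.Agent.W623.SecH

universe u v w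

section defs

variable {A : Type u} {M : Type v} [Field A] [Field M] (ι : A →+* M) {X : Type w} (θ : X → A)
  (x : M) (r : X)

/-- the normalised functions -/
def et (i : X) : M := (x - ι (θ i)) / ι (θ r - θ i)

/-- a place above the branch point `r` with `δ i j = 1` -/
structure Pl (δ : X → X → M) (W : ValuationSubring M) : Prop where
  const : ∀ a, ι a ∈ W
  non : x - ι (θ r) ∈ W.nonunits
  one : ∀ i j, i ≠ r → j ≠ r → δ i j - 1 ∈ W.nonunits

end defs

/-- **existence of the place** -/
def PLACEX : Prop :=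
  ∀ (A : Type u) (M : Type v) [Field A] [CharZero A] [IsAlgClosed A] [Field M] (ι : A →+* M)
    (X : Type w) [Fintype X] [DecidableEq X], Even (Fintype.card X) →
    ∀ θ : X → A, Function.Injective θ → ∀ c : A, c ≠ 0 → ∀ x y : M, y ≠ 0 →
    ι c * y ^ 2 = ∏ i, (x - ι (θ i)) → (∀ p : Polynomial A, p ≠ 0 → Polynomial.eval₂ ι x p ≠ 0) →
    ∀ (r : X) (δ : X → X → M),
    (∀ i j, i ≠ r → j ≠ r → δ i j ^ 2 = et ι θ x r i * et ι θ x r j) →
    (∀ i j l, i ≠ r → j ≠ r → l ≠ r → δ i j * δ j l = et ι θ x r j * δ i l) →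
    -- `M` is a Galois extension of `A(x, y)`
    (∀ T : Subfield M, (∀ a, ι a ∈ T) → x ∈ T → y ∈ T → ∀ z, z ∉ T →
      ∃ α : M ≃+* M, (∀ w ∈ T, α w = w) ∧ α z ≠ z) →
    ∃ W : ValuationSubring M, Pl ι θ x r δ W

end Pool.Agent.W623.SecH
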