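import Pool.Agent.W623.SecH.Stm3
import Pool.Agent.W623.SecG.Res

/-! # From canonical square roots to stable places -/

namespace Pool.Agent.W623.SecH

open Pool.Agent.W620.SC Pool.Agent.W623.SecC Pool.Agent.W623.SecE Polynomial IntermediateField

universe u v w

section comap

lemma nonunit_comap_iff {K L : Type*} [Field K] [Field L] (g : K →+* L) (W : ValuationSubring L)
    (z : K) : z ∈ (W.comap g).nonunits ↔ g z ∈ W.nonunits := by
  rw [ValuationSubring.mem_nonunits_iff_or, ValuationSubring.mem_nonunits_iff_or,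
    ValuationSubring.mem_comap, map_inv₀, map_eq_zero]

end comap

variable {k : Type u} {F : Type v} {Ω : Type w} [Field k] [Field F] [Field Ω] [Algebra k F]
  [Algebra F Ω] [Algebra k Ω] [IsScalarTower k F Ω]

/-- canonical square roots for the automorphisms in `E` -/
def Canon {U : Set (ValuationSubring F)} (hU : ∀ O ∈ U, ∀ c : k, algebraMap k F c ∈ O)
    (G : GSection k F Ω U) (x y : F) (f : k[X])
    (E : Set (algebraicClosure k Ω ≃ₐ[k] algebraicClosure k Ω)) : Prop :=
  ∃ (X : Type w) (_ : Fintype X) (_ : DecidableEq X) (θ : X → algebraicClosure k Ω) (r : X)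
    (δ : X → X → unramified F Ω U) (c : algebraicClosure k Ω),
    4 ≤ Fintype.card X ∧
    (∃ τ : algebraicClosure k Ω ≃ₐ[k] algebraicClosure k Ω, (∀ i, τ (θ i) = θ i) ∧
      (∀ i j, i ≠ j → ∃ b, b ^ 2 = θ i - θ j ∧ τ b = b) ∧ ∃ b, b ^ 2 = c ∧ τ b = -b) ∧
    Even (Fintype.card X) ∧ Function.Injective θ ∧ (∀ z, aeval z f = 0 ↔ ∃ i, θ i = z) ∧
    c ≠ 0 ∧ constHom hU c * (algebraMap F (unramified F Ω U) y) ^ 2 =
      ∏ i, (algebraMap F (unramified F Ω U) x - constHom hU (θ i)) ∧
    (∀ i j, i ≠ r → j ≠ r → δ i j ^ 2 = et (constHom hU) θ (algebraMap F _ x) r i *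
      et (constHom hU) θ (algebraMap F _ x) r j) ∧
    (∀ i j l, i ≠ r → j ≠ r → l ≠ r → δ i j * δ j l =
      et (constHom hU) θ (algebraMap F _ x) r j * δ i l) ∧
    ∀ τ ∈ E, τ (θ r) = θ r ∧ ∀ π' : Equiv.Perm X, (∀ i, τ (θ i) = θ (π' i)) → ∀ i j, i ≠ r →
      j ≠ r → G.toHom τ (δ i j) = δ (π' i) (π' j)

/-- the field generated by `F`, the constants and the square roots of the ratios -/
noncomputable def Mtw (Ω : Type w) [Field Ω] [Algebra F Ω] [Algebra k Ω] [IsScalarTower k F Ω]
    (U : Set (ValuationSubring F)) (x : F) (f : k[X]) : Subfield (unramified F Ω U) :=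
  Subfield.closure (Set.range (algebraMap F (unramified F Ω U)) ∪
    {z | IsAlgebraic k z} ∪
    {z | ∃ a b : unramified F Ω U, aeval a f = 0 ∧ aeval b f = 0 ∧
      z ^ 2 * (algebraMap F (unramified F Ω U) x - b) = algebraMap F (unramified F Ω U) x - a})

lemma exists_perm {X A : Type*} [Finite X] [Field A] [Algebra k A] (θ : X → A)
    (hθ : Function.Injective θ) (f : k[X]) (hf : ∀ z, aeval z f = 0 ↔ ∃ i, θ i = z)
    (σ : A ≃ₐ[k] A) : ∃ π : Equiv.Perm X, ∀ i, σ (θ i) = θ (π i) := by
  have h1 : ∀ i, ∃ j, θ j = σ (θ i) := by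
    intro i
    rw [← hf]
    have h2 : aeval (σ (θ i)) f = σ (aeval (θ i) f) := aeval_algHom_apply (σ : A →ₐ[k] A) (θ i) f
    rw [h2, (hf (θ i)).2 ⟨i, rfl⟩, map_zero]
  choose p hp using h1
  have hinj : Function.Injective p := by
    intro i j hij
    apply hθ
    apply σ.injective
    rw [← hp, ← hp, hij]
  exact ⟨Equiv.ofBijective p (Finite.injective_iff_bijective.1 hinj), fun i => (hp i).symm⟩

variable [CharZero k] [IsAlgClosed Ω] [Algebra.IsAlgebraic F Ω]

omit [CharZero k] in
lemma field_mem (x y : F)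
    (hF : adjoin k {x, y} = (⊤ : IntermediateField k F)) {M : Type*} [Field M] (j : F →+* M)
    (T : Subfield M) (hk : ∀ c : k, j (algebraMap k F c) ∈ T) (hx : j x ∈ T) (hy : j y ∈ T)
    (z : F) : j z ∈ T := by
  have hz : z ∈ adjoin k {x, y} := by
    rw [hF]
    trivial
  induction hz using adjoin_induction with
  | mem z hz =>
    rcases hz with rfl | hz
    · exact hx
    · rw [Set.mem_singleton_iff.1 hz]
      exact hy
  | algebraMap c => exact hk c
  | add a b _ _ ha hb => rw [map_add]; exact add_mem ha hb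
  | inv a _ ha => rw [map_inv₀]; exact inv_mem ha
  | mul a b _ _ ha hb => rw [map_mul]; exact mul_mem ha hb

theorem att (hP : PLACEX.{w, w, w}) (hS : STABX.{w, w, w}) {U : Set (ValuationSubring F)}
    (hU : ∀ O ∈ U, ∀ c : k, algebraMap k F c ∈ O) (G : GSection k F Ω U) (f : k[X]) (x y : F)
    (hx : Transcendental k x) (hF : adjoin k {x, y} = (⊤ : IntermediateField k F))
    (h : Canon hU G x y f Set.univ) :
    ∃ θ : k, f.eval θ = 0 ∧ ∃ W : ValuationSubring (unramified F Ω U),
      (∀ c : k, algebraMap F (unramified F Ω U) (algebraMap k F c) ∈ W) ∧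
      algebraMap F (unramified F Ω U) (x - algebraMap k F θ) ∈ W.nonunits ∧
      (∀ z : F, algebraMap F (unramified F Ω U) z ∈ W → ∃ c : k,
        algebraMap F (unramified F Ω U) (z - algebraMap k F c) ∈ W.nonunits) ∧
      ∀ z ∈ Mtw Ω U x f, ∀ σ, G.toHom σ z ∈ W ↔ z ∈ W := by
  obtain ⟨X, hX1, hX2, θ, r, δ, c, -, -, hev, hθ, hroots, hc0, hxy, hδ2, hδδ, hτ⟩ := h
  have hac : IsAlgClosure k (algebraicClosure k Ω) := inferInstance
  have hkb : IsAlgClosed (algebraicClosure k Ω) := hac.1
  have hch : CharZero (algebraicClosure k Ω) :=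
    charZero_of_injective_algebraMap (algebraMap k (algebraicClosure k Ω)).injective
  have hchΩ : CharZero Ω := charZero_of_injective_algebraMap (algebraMap k Ω).injective
  have hchF : CharZero F := charZero_of_injective_algebraMap (algebraMap k F).injective
  have : Normal k (algebraicClosure k Ω) := IsAlgClosure.normal k _
  have hGal : IsGalois k (algebraicClosure k Ω) := ⟨⟩
  have hcoe : ∀ c : k, algebraMap k (unramified F Ω U) c =
      algebraMap F (unramified F Ω U) (algebraMap k F c) := fun c => by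
    apply Subtype.ext
    exact IsScalarTower.algebraMap_apply k F Ω c
  have hι : ∀ c : k, constHom hU (algebraMap k (algebraicClosure k Ω) c) =
      algebraMap k (unramified F Ω U) c := fun c => rfl
  have hιk : ∀ c : k, constHom hU (algebraMap k (algebraicClosure k Ω) c) =
      algebraMap F (unramified F Ω U) (algebraMap k F c) := fun c => by rw [hι, hcoe]
  have hgι : ∀ σ a, G.toHom σ (constHom hU a) = constHom hU (σ a) := fun σ a =>
    Subtype.ext (G.compat σ a (constHom hU a) rfl)
  have htr := tr_const (k := k) (Ω := Ω) hx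
  set ι := constHom (F := F) (Ω := Ω) hU with hιdef
  set x' := algebraMap F (unramified F Ω U) x with hx'
  set y' := algebraMap F (unramified F Ω U) y with hy'
  have htrM : ∀ a, ι a ≠ x' := fun a h =>
    htr a (congrArg (algebraMap (unramified F Ω U) Ω) h)
  have hne : ∀ i, x' - ι (θ i) ≠ 0 := fun i h => htrM _ (sub_eq_zero.1 h).symm
  have hy0' : y' ≠ 0 := by
    intro h0
    rw [h0, zero_pow (by norm_num), mul_zero] at hxy
    obtain ⟨i, -, hi⟩ := Finset.prod_eq_zero_iff.1 hxy.symm
    exact hne i hi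
  have hxtr : ∀ p : Polynomial (algebraicClosure k Ω), p ≠ 0 → Polynomial.eval₂ ι x' p ≠ 0 := by
    intro p hp h0
    obtain ⟨a, ha⟩ := alg_mem ι hp h0
    exact htrM a ha
  -- the place of `Ω`
  set jΩ := algebraMap (unramified F Ω U) Ω with hjΩ
  have hjι : ∀ a, jΩ (ι a) = algebraMap (algebraicClosure k Ω) Ω a := fun a => rfl
  have het : ∀ i, jΩ (et ι θ x' r i) =
      et (algebraMap (algebraicClosure k Ω) Ω) θ (jΩ x') r i := by
    intro i
    unfold et
    rw [map_div₀, map_sub, hjι, hjι]
  obtain ⟨W₁, hW₁⟩ := hP (algebraicClosure k Ω) Ω (algebraMap (algebraicClosure k Ω) Ω) X hev θ hθ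
    c hc0 (jΩ x') (jΩ y') ((_root_.map_ne_zero _).2 hy0') (by
      have h1 := congrArg jΩ hxy
      rw [map_mul, map_pow, map_prod] at h1
      rw [← hjι, h1]
      refine Finset.prod_congr rfl fun i _ => ?_
      rw [map_sub, hjι]) (by
      intro p hp h0
      obtain ⟨a, ha⟩ := alg_mem _ hp h0
      exact htr a ha) r (fun i j => jΩ (δ i j)) (by
      intro i j hi hj
      beta_reduce
      rw [← map_pow, hδ2 i j hi hj, map_mul, het, het]) (by
      intro i j l hi hj hl
      beta_reduce
      rw [← map_mul, hδδ i j l hi hj hl, map_mul, het]) (by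
      intro T hT1 hT2 hT3 z hz
      have hFT : ∀ w : F, algebraMap F Ω w ∈ T :=
        field_mem x y hF (algebraMap F Ω) T (fun c => by
          rw [← IsScalarTower.algebraMap_apply]
          exact hT1 (algebraMap k _ c)) hT2 hT3
      let jT : F →+* T := (algebraMap F Ω).codRestrict T hFT
      have halg : Algebra.IsAlgebraic T Ω := by
        refine ⟨fun w => ?_⟩
        obtain ⟨p, hp, hpw⟩ := Algebra.IsAlgebraic.isAlgebraic (R := F) w
        refine ⟨p.map jT, (Polynomial.map_ne_zero_iff jT.injective).2 hp, ?_⟩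
        rw [aeval_def, eval₂_map]
        exact hpw
      have hchT : CharZero T := charZero_of_injective_ringHom jT.injective
      have hacT : IsAlgClosure T Ω := ⟨inferInstance, halg⟩
      have hnT : Normal T Ω := IsAlgClosure.normal T Ω
      have hGT : IsGalois T Ω := ⟨⟩
      by_contra hcon
      push Not at hcon
      apply hz
      have h1 : z ∈ (⊥ : IntermediateField T Ω) := by
        apply mem_of_fixed
        intro σ _
        exact hcon σ.toRingEquiv (fun w hw => σ.commutes ⟨w, hw⟩)
      obtain ⟨w, hw⟩ := IntermediateField.mem_bot.1 h1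
      rw [← hw]
      exact w.2)
  set W : ValuationSubring (unramified F Ω U) := W₁.comap jΩ with hW
  have hPl : Pl ι θ x' r δ W := by
    refine ⟨fun a => hW₁.const a, ?_, ?_⟩
    · rw [hW, nonunit_comap_iff, map_sub, hjι]
      exact hW₁.non
    · intro i j hi hj
      rw [hW, nonunit_comap_iff, map_sub, map_one]
      exact hW₁.one i j hi hj
  have hfix : ∀ σ : algebraicClosure k Ω ≃ₐ[k] algebraicClosure k Ω, σ (θ r) = θ r :=
    fun σ => (hτ σ trivial).1
  have hst : ∀ σ, Pl ι θ x' r δ (W.comap ((G.toHom σ : unramified F Ω U ≃ₐ[F] unramified F Ω U) :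
      unramified F Ω U →+* unramified F Ω U)) := by
    intro σ
    obtain ⟨π, hπ⟩ := exists_perm θ hθ f hroots σ
    have hπr : π r = r := hθ (by rw [← hπ, hfix])
    have hπi : ∀ i, i ≠ r → π i ≠ r := fun i hi h0 => hi (π.injective (by rw [h0, hπr]))
    refine ⟨?_, ?_, ?_⟩
    · intro a
      rw [ValuationSubring.mem_comap]
      change G.toHom σ (ι a) ∈ W
      rw [hgι]
      exact hPl.const _
    · rw [nonunit_comap_iff]
      change G.toHom σ (x' - ι (θ r)) ∈ W.nonunits
      rw [map_sub, hgι, hfix, (G.toHom σ).commutes]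
      exact hPl.non
    · intro i j hi hj
      rw [nonunit_comap_iff]
      change G.toHom σ (δ i j - 1) ∈ W.nonunits
      rw [map_sub, map_one, (hτ σ trivial).2 π hπ i j hi hj]
      exact hPl.one _ _ (hπi i hi) (hπi j hj)
  have hST := fun σ => hS (algebraicClosure k Ω) (unramified F Ω U) ι X hev θ hθ c hc0 x' y' hy0'
    hxy hxtr r δ hδ2 W _ hPl (hst σ)
  have hstab : ∀ z ∈ M2x ι θ x' y', ∀ σ, G.toHom σ z ∈ W ↔ z ∈ W := by
    intro z hz σ
    rw [(hST σ).1 z hz, ValuationSubring.mem_comap]
    rfl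
  have hres := (hST 1).2
  -- the root is rational
  obtain ⟨θ0, hθ0⟩ : ∃ θ0 : k, algebraMap k (algebraicClosure k Ω) θ0 = θ r := by
    have h1 : θ r ∈ (⊥ : IntermediateField k (algebraicClosure k Ω)) := by
      apply mem_of_fixed
      intro σ _
      exact hfix σ
    exact IntermediateField.mem_bot.1 h1
  have hFM : ∀ z : F, algebraMap F (unramified F Ω U) z ∈ M2x ι θ x' y' :=
    field_mem x y hF (algebraMap F (unramified F Ω U)) _ (fun c => by
      rw [← hιk]
      exact Subfield.subset_closure (Or.inl (Or.inl ⟨_, rfl⟩)))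
      (Subfield.subset_closure (Or.inl (Or.inr (Or.inl rfl))))
      (Subfield.subset_closure (Or.inl (Or.inr (Or.inr rfl))))
  have hιM : ∀ a, ι a ∈ M2x ι θ x' y' := fun a =>
    Subfield.subset_closure (Or.inl (Or.inl ⟨_, rfl⟩))
  refine ⟨θ0, ?_, W, ?_, ?_, ?_, ?_⟩
  · have h1 : aeval (θ r) f = 0 := (hroots _).2 ⟨r, rfl⟩
    rw [← hθ0, aeval_algebraMap_apply, map_eq_zero_iff _ (algebraMap k _).injective] at h1
    rwa [aeval_def, Algebra.algebraMap_self, eval₂_id] at h1
  · intro c
    rw [← hιk]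
    exact hPl.const _
  · rw [map_sub, ← hιk, hθ0]
    exact hPl.non
  · intro z hz
    obtain ⟨a, ha⟩ := hres _ (hFM z) hz
    have hstn : ∀ w ∈ M2x ι θ x' y', w ∈ W.nonunits → ∀ σ, G.toHom σ w ∈ W.nonunits := by
      intro w hw hwn σ
      rw [ValuationSubring.mem_nonunits_iff_or] at hwn ⊢
      rcases hwn with h1 | h1
      · exact Or.inl (by rw [h1, map_zero])
      · refine Or.inr ?_
        rw [← map_inv₀, hstab _ (inv_mem hw)]
        exact h1
    have h1 : a ∈ (⊥ : IntermediateField k (algebraicClosure k Ω)) := by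
      apply mem_of_fixed
      intro σ _
      by_contra hne
      have h2 := hstn _ (sub_mem (hFM z) (hιM a)) ha σ
      rw [map_sub, (G.toHom σ).commutes, hgι] at h2
      have h3 : ι (a - σ a) ∈ W.nonunits := by
        have h4 : ι (a - σ a) = (-1) * ((algebraMap F (unramified F Ω U) z - ι a) -
            (algebraMap F (unramified F Ω U) z - ι (σ a))) := by
          rw [map_sub]
          ring
        rw [h4]
        exact nonunit_mul (neg_mem (one_mem _)) (sub_mem ha h2)
      have h5 : IsU W (ι (a - σ a)) := by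
        refine ⟨(_root_.map_ne_zero _).2 (sub_ne_zero.2 (Ne.symm hne)), hPl.const _, ?_⟩
        rw [← map_inv₀]
        exact hPl.const _
      exact h5.not_nonunit h3
    obtain ⟨c, hc⟩ := IntermediateField.mem_bot.1 h1
    refine ⟨c, ?_⟩
    rw [map_sub, ← hιk, hc]
    exact ha
  · intro z hz σ
    refine hstab z ?_ σ
    have hle : Mtw Ω U x f ≤ M2x ι θ x' y' := by
      unfold Mtw
      rw [Subfield.closure_le]
      rintro z ((hz | hz) | hz)
      · obtain ⟨w, rfl⟩ := hz
        exact hFM w
      · obtain ⟨a, rfl⟩ := Pool.Agent.W623.SecG.alg_range hU z hz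
        exact hιM a
      · obtain ⟨a, b, ha, hb, hab⟩ := hz
        have hroot : ∀ a : unramified F Ω U, aeval a f = 0 → ∃ i, ι (θ i) = a := by
          intro a ha
          have hf0 : f ≠ 0 := by
            rintro rfl
            -- a nonzero polynomial because it has finitely many roots
            have hinf : Infinite (algebraicClosure k Ω) := inferInstance
            have h2 : Function.Surjective θ := fun z => (hroots z).1 (map_zero _)
            exact (Finite.of_surjective θ h2).not_infinite hinf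
          obtain ⟨b, rfl⟩ := Pool.Agent.W623.SecG.alg_range hU a ⟨f, hf0, ha⟩
          have h1 : aeval b f = 0 := by
            apply ι.injective
            rw [map_zero, ← ha, aeval_def, aeval_def, hom_eval₂]
            rfl
          obtain ⟨i, hi⟩ := (hroots b).1 h1
          exact ⟨i, by rw [hi]⟩
        obtain ⟨i, rfl⟩ := hroot a ha
        obtain ⟨j, rfl⟩ := hroot b hb
        exact Subfield.subset_closure (Or.inr ⟨i, j, hab⟩)
    exact hle hz

/-- uniqueness of the branch point -/
theorem att_unique (hUq : UNIQX.{w, w, w}) {U : Set (ValuationSubring F)}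
    (hU : ∀ O ∈ U, ∀ c : k, algebraMap k F c ∈ O) (G : GSection k F Ω U) (f : k[X]) (x y : F)
    (hx : Transcendental k x)
    {E : Set (algebraicClosure k Ω ≃ₐ[k] algebraicClosure k Ω)}
    (h : Canon hU G x y f E) (θ0 θ1 : k) (h0 : f.eval θ0 = 0) (h1 : f.eval θ1 = 0)
    (W0 W1 : ValuationSubring (unramified F Ω U))
    (hk0 : ∀ c : k, algebraMap F (unramified F Ω U) (algebraMap k F c) ∈ W0)
    (hx0 : algebraMap F (unramified F Ω U) (x - algebraMap k F θ0) ∈ W0.nonunits)
    (hs0 : ∀ z ∈ Mtw Ω U x f, ∀ σ, G.toHom σ z ∈ W0 ↔ z ∈ W0)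
    (hk1 : ∀ c : k, algebraMap F (unramified F Ω U) (algebraMap k F c) ∈ W1)
    (hx1 : algebraMap F (unramified F Ω U) (x - algebraMap k F θ1) ∈ W1.nonunits)
    (hs1 : ∀ z ∈ Mtw Ω U x f, ∀ σ, G.toHom σ z ∈ W1 ↔ z ∈ W1) : θ0 = θ1 := by
  obtain ⟨X, hX1, hX2, θ, r, δ, c, hX4, ⟨τ, hτθ, hτd, hτc⟩, hev, hθ, hroots, hc0, hxy, -, -, -⟩ := h
  have hac : IsAlgClosure k (algebraicClosure k Ω) := inferInstance
  have hkb : IsAlgClosed (algebraicClosure k Ω) := hac.1
  have hch : CharZero (algebraicClosure k Ω) :=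
    charZero_of_injective_algebraMap (algebraMap k (algebraicClosure k Ω)).injective
  have hcoe : ∀ c : k, algebraMap k (unramified F Ω U) c =
      algebraMap F (unramified F Ω U) (algebraMap k F c) := fun c => by
    apply Subtype.ext
    exact IsScalarTower.algebraMap_apply k F Ω c
  have hι : ∀ c : k, constHom hU (algebraMap k (algebraicClosure k Ω) c) =
      algebraMap k (unramified F Ω U) c := fun c => rfl
  have hιk : ∀ c : k, constHom hU (algebraMap k (algebraicClosure k Ω) c) =
      algebraMap F (unramified F Ω U) (algebraMap k F c) := fun c => by rw [hι, hcoe]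
  have hgι : ∀ σ a, G.toHom σ (constHom hU a) = constHom hU (σ a) := fun σ a =>
    Subtype.ext (G.compat σ a (constHom hU a) rfl)
  have htr := tr_const (k := k) (Ω := Ω) hx
  have hy0 : y ≠ 0 := by
    rintro rfl
    rw [map_zero, zero_pow (by norm_num), mul_zero] at hxy
    obtain ⟨i, -, hi⟩ := Finset.prod_eq_zero_iff.1 hxy.symm
    exact htr _ (congrArg (algebraMap (unramified F Ω U) Ω) (sub_eq_zero.1 hi)).symm
  have hxyΩ : (c : Ω) * algebraMap F Ω y ^ 2 = ∏ i, (algebraMap F Ω x - (θ i : Ω)) := by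
    have h2 := congrArg (algebraMap (unramified F Ω U) Ω) hxy
    rw [map_mul, map_pow, map_prod] at h2
    exact h2
  have hM : M2x (constHom (F := F) (Ω := Ω) hU) θ (algebraMap F (unramified F Ω U) x)
      (algebraMap F (unramified F Ω U) y) ≤ Mtw Ω U x f := by
    unfold M2x
    rw [Subfield.closure_le]
    rintro z ((hz | hz) | hz)
    · obtain ⟨a, rfl⟩ := hz
      exact Subfield.subset_closure (Or.inl (Or.inr
        (Pool.Agent.W623.SecG.range_alg (F := F) hU a)))
    · rcases hz with rfl | hz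
      · exact Subfield.subset_closure (Or.inl (Or.inl ⟨x, rfl⟩))
      · rw [Set.mem_singleton_iff.1 hz]
        exact Subfield.subset_closure (Or.inl (Or.inl ⟨y, rfl⟩))
    · obtain ⟨i, j, hij⟩ := hz
      have hr : ∀ i, aeval (constHom (F := F) (Ω := Ω) hU (θ i)) f = 0 := by
        intro i
        have h2 : aeval (θ i) f = 0 := (hroots _).2 ⟨i, rfl⟩
        have h3 : aeval (constHom (F := F) (Ω := Ω) hU (θ i)) f =
            constHom hU (aeval (θ i) f) := by
          rw [aeval_def, aeval_def, hom_eval₂]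
          rfl
        rw [h3, h2, map_zero]
      exact Subfield.subset_closure (Or.inr ⟨_, _, hr i, hr j, hij⟩)
  have hidx : ∀ θ0 : k, f.eval θ0 = 0 → ∃ i, θ i = algebraMap k (algebraicClosure k Ω) θ0 := by
    intro θ0 h0
    rw [← hroots, aeval_algebraMap_apply, aeval_def, Algebra.algebraMap_self, eval₂_id, h0,
      map_zero]
  obtain ⟨r0, hr0⟩ := hidx θ0 h0
  obtain ⟨r1, hr1⟩ := hidx θ1 h1
  have hconst : ∀ W : ValuationSubring (unramified F Ω U),
      (∀ c : k, algebraMap F (unramified F Ω U) (algebraMap k F c) ∈ W) →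
      ∀ a, constHom hU a ∈ W := by
    intro W hW a
    exact Pool.Agent.W623.SecG.const_mem_val (k := k) (constHom hU) hι
      (fun c => by rw [hcoe]; exact hW c) a
  have hfin := hUq (algebraicClosure k Ω) (unramified F Ω U) (constHom hU) X hX4 hev θ hθ c hc0
    (algebraMap F (unramified F Ω U) x) (algebraMap F (unramified F Ω U) y)
    ((_root_.map_ne_zero _).2 hy0) hxy (fun i j => ratio_root U hU θ hθ x y hy0 c hc0 hxyΩ htr i j)
    (G.toHom τ).toRingEquiv τ.toRingEquiv (fun a => hgι τ a) ((G.toHom τ).commutes x)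
    ((G.toHom τ).commutes y) hτθ hτd hτc r0 r1 W0 W1 (hconst W0 hk0) (by
      rw [hr0, hιk, ← map_sub]
      exact hx0) (fun z hz => hs0 z (hM hz) τ) (hconst W1 hk1) (by
      rw [hr1, hιk, ← map_sub]
      exact hx1) (fun z hz => hs1 z (hM hz) τ)
  apply (algebraMap k (algebraicClosure k Ω)).injective
  rw [← hr0, ← hr1, hfin]

end Pool.Agent.W623.SecH
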