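import Pool.Agent.W623.SecC.Unr
import Pool.Agent.W623.SecE.Glb

/-! # Elements of the inertia group -/

namespace Pool.Agent.W623.SecH

open Pool.Agent.W620.SC Pool.Agent.W623.SecC Polynomial IntermediateField

universe u w

lemma isU_zpow_zero {K : Type*} [Field K] {V : ValuationSubring K} {p : K} (hp : p ∈ V.nonunits)
    (n : ℤ) (h : IsU V (p ^ n)) : n = 0 := by
  rcases lt_trichotomy n 0 with hn | hn | hn
  · exfalso
    obtain ⟨m, hm⟩ := Int.eq_ofNat_of_zero_le (show 0 ≤ -n by omega)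
    have h1 := h.inv
    rw [← zpow_neg, hm] at h1
    simp only [Int.ofNat_eq_natCast, zpow_natCast] at h1
    exact h1.not_nonunit (pow_nonunit hp (by omega))
  · exact hn
  · exfalso
    obtain ⟨m, hm⟩ := Int.eq_ofNat_of_zero_le (show 0 ≤ n by omega)
    rw [hm] at h
    simp only [Int.ofNat_eq_natCast, zpow_natCast] at h
    exact h.not_nonunit (pow_nonunit hp (by omega))

theorem exists_inertia {k : Type u} {A : Type w} [Field k] [Field A] [Algebra k A] [IsAlgClosed A]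
    [IsGalois k A] (V : ValuationSubring A) (S : IntermediateField k A) (ϖ : k)
    (ϖn : algebraMap k A ϖ ∈ V.nonunits)
    (sq : ∀ η ∈ S, IsU V η → ∀ ρ : A, ρ ^ 2 = η → ρ ∈ S)
    (tame : ∀ c ∈ S, c ≠ 0 → ∃ j : ℤ, IsU V (c / algebraMap k A ϖ ^ j))
    {X : Type*} (θ : X → A) (hθS : ∀ i, θ i ∈ S)
    (hθd : ∀ i j, i ≠ j → IsU V (θ i - θ j)) (c : A) (hcS : c ∈ S)
    (m : ℤ) (hm : Odd m) (hc : IsU V (c / algebraMap k A ϖ ^ m)) :
    ∃ τ : A ≃ₐ[k] A, (∀ i, τ (θ i) = θ i) ∧ (∀ i j, i ≠ j → ∃ b, b ^ 2 = θ i - θ j ∧ τ b = b) ∧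
      ∃ b, b ^ 2 = c ∧ τ b = -b := by
  have hp0 : algebraMap k A ϖ ≠ 0 := by
    intro h0
    rw [h0] at hc
    have hm0 : m ≠ 0 := by
      rintro rfl
      exact absurd hm (by decide)
    rw [zero_zpow _ hm0, div_zero] at hc
    exact hc.1 rfl
  have hc0 : c ≠ 0 := by
    rintro rfl
    rw [zero_div] at hc
    exact hc.1 rfl
  obtain ⟨b, hb⟩ := IsAlgClosed.exists_pow_nat_eq c (n := 2) (by norm_num)
  have hbS : b ∉ S := by
    intro h
    have hb0 : b ≠ 0 := by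
      rintro rfl
      rw [zero_pow (by norm_num)] at hb
      exact hc0 hb.symm
    obtain ⟨j, hj⟩ := tame b h hb0
    have h1 : IsU V ((c / algebraMap k A ϖ ^ m)⁻¹ * (b / algebraMap k A ϖ ^ j) ^ 2) :=
      hc.inv.mul (hj.pow 2)
    have h2 : (c / algebraMap k A ϖ ^ m)⁻¹ * (b / algebraMap k A ϖ ^ j) ^ 2 =
        algebraMap k A ϖ ^ (m - 2 * j) := by
      rw [zpow_sub₀ hp0, mul_comm 2 j, zpow_mul, zpow_ofNat, div_pow, hb]
      have h3 : algebraMap k A ϖ ^ j ≠ 0 := zpow_ne_zero _ hp0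
      field_simp
    rw [h2] at h1
    have h3 := isU_zpow_zero ϖn _ h1
    obtain ⟨n, hn⟩ := hm
    omega
  obtain ⟨τ, hτS, hτb⟩ : ∃ τ ∈ S.fixingSubgroup, τ b ≠ b := by
    by_contra hcon
    push Not at hcon
    exact hbS (mem_of_fixed S hcon)
  have hfix : ∀ z ∈ S, τ z = z := fun z hz => (mem_fixingSubgroup_iff _ _).1 hτS z hz
  refine ⟨τ, fun i => hfix _ (hθS i), ?_, b, hb, ?_⟩
  · intro i j hij
    obtain ⟨d, hd⟩ := IsAlgClosed.exists_pow_nat_eq (θ i - θ j) (n := 2) (by norm_num)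
    exact ⟨d, hd, hfix _ (sq _ (sub_mem (hθS i) (hθS j)) (hθd i j hij) d hd)⟩
  · have h1 : (τ b) ^ 2 = b ^ 2 := by rw [← map_pow, hb, hfix c hcS]
    rcases sq_eq_sq_iff_eq_or_eq_neg.1 h1 with h | h
    · exact absurd h hτb
    · exact h

end Pool.Agent.W623.SecH
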