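import Pool.Agent.W623.SecH.Ind

/-! # The canonical square roots -/

namespace Pool.Agent.W623.SecC

open Pool.Agent.W620.SC Polynomial Pool.Agent.W623.SecE Pool.Agent.W623.SecD Pool.Agent.W623.SecH

universe u v w

namespace Dat

variable {k : Type*} {A : Type u} {M : Type v} [Field k] [Field A] [Field M] [Algebra k A]

/-- the same data with another automorphism -/
def wth (D : Dat k A M) (τ : A ≃ₐ[k] A) (hV : ∀ z, τ z ∈ D.V ↔ z ∈ D.V)
    (hS : ∀ z, τ z ∈ D.S ↔ z ∈ D.S) : Dat k A M where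
  s := D.s
  ι := D.ι
  hι := D.hι
  cont := D.cont
  S := D.S
  V := D.V
  ϖ := D.ϖ
  ϖ0 := D.ϖ0
  ϖn := D.ϖn
  sq := D.sq
  tame := D.tame
  φ := τ
  φV := hV
  φS := hS

variable {D : Dat k A M}

lemma wth_par {τ : A ≃ₐ[k] A} {hV : ∀ z, τ z ∈ D.V ↔ z ∈ D.V} {hS : ∀ z, τ z ∈ D.S ↔ z ∈ D.S}
    {u : M} {n : ℤ} : (D.wth τ hV hS).Par u n ↔ D.Par u n := Iff.rfl

lemma sg_map {M : Type*} [Field M] (g : M ≃+* M) (a : ZMod 2) : g (sg M a) = sg M a := by
  rcases zmod2_cases a with h | h <;> rw [h]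
  · rw [sg_zero, map_one]
  · rw [sg_one, map_neg, map_one]

lemma sg_sq {M : Type*} [Field M] (a : ZMod 2) : sg M a ^ 2 = 1 := by
  rcases zmod2_cases a with h | h <;> rw [h]
  · rw [sg_zero, one_pow]
  · rw [sg_one]
    norm_num

namespace Gm

variable {Y : Type*} [Fintype Y] [DecidableEq Y] (B : D.Gm Y)

/-- the same square roots for another automorphism -/
def wth (τ : A ≃ₐ[k] A) (hV : ∀ z, τ z ∈ D.V ↔ z ∈ D.V)
    (hS : ∀ z, τ z ∈ D.S ↔ z ∈ D.S) (π' : Equiv.Perm Y) (hπ' : ∀ i, τ (B.e i) = B.e (π' i))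
    (hz : D.s τ B.z = B.z) : (D.wth τ hV hS).Gm Y where
  e := B.e
  heS := B.heS
  hed := B.hed
  π := π'
  hπ := hπ'
  z := B.z
  hφz := hz
  htr := B.htr
  γ := B.γ
  hγ := B.hγ
  hzγ := B.hzγ
  hsq := B.hsq

variable [CharZero k] [IsAlgClosed A] [Algebra.IsAlgebraic k A]

lemma wth_H (τ : A ≃ₐ[k] A) (hV : ∀ z, τ z ∈ D.V ↔ z ∈ D.V)
    (hS : ∀ z, τ z ∈ D.S ↔ z ∈ D.S) (π' : Equiv.Perm Y) (hπ' : ∀ i, τ (B.e i) = B.e (π' i))
    (hz : D.s τ B.z = B.z) (i j l : Y) (hi : i ≠ l) (hj : j ≠ l) :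
    (B.wth τ hV hS π' hπ' hz).H i j l = B.H i j l := by
  obtain ⟨n, hn⟩ := B.exh i j l hi hj
  rw [B.H_eq hi hj hn]
  exact (B.wth τ hV hS π' hπ' hz).H_eq hi hj hn

theorem exists_u {V' : ValuationSubring A} {q : ℕ} (hD : D.OkB V' q)
    (hed' : ∀ i j, i ≠ j → IsU V' (B.e i - B.e j)) (hY : 3 ≤ Fintype.card Y) :
    ∃ u : Y → Y → ZMod 2, (∀ i j l, i ≠ l → j ≠ l → u i j = B.H i j l) ∧
      (∀ i j l, u i j + u j l = u i l) ∧ ∀ i j : Y, ∃ l, i ≠ l ∧ j ≠ l := by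
  have hthird : ∀ i j : Y, ∃ l, i ≠ l ∧ j ≠ l := by
    intro i j
    by_contra hcon
    push Not at hcon
    have h2 : (Finset.univ : Finset Y) ⊆ {i, j} := by
      intro t _
      rw [Finset.mem_insert, Finset.mem_singleton]
      by_cases h : i = t
      · exact Or.inl h.symm
      · exact Or.inr (hcon t h).symm
    have h3 := Finset.card_le_card h2
    have h4 : ({i, j} : Finset Y).card ≤ 2 := Finset.card_le_two
    rw [Finset.card_univ] at h3
    omega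
  have hthird' := hthird
  choose t ht1 ht2 using hthird
  have hself2 : ∀ a : ZMod 2, a + a = 0 := by decide
  have hdiag : ∀ i l, i ≠ l → B.H i i l = 0 := by
    intro i l h
    have h1 : D.Par ((B.γ i + B.γ l) * (B.γ i + B.γ l)) 0 := by
      rw [← pow_two]
      exact Par.sq (add_mem (B.hγ _) (B.hγ _)) (B.add_ne h)
    rw [B.H_eq h h h1, Int.cast_zero]
  set u : Y → Y → ZMod 2 := fun i j => B.H i j (t i j) with hu
  have hu_eq : ∀ i j l, i ≠ l → j ≠ l → u i j = B.H i j l := by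
    intro i j l hi hj
    by_cases hij : i = j
    · subst hij
      rw [hdiag i l hi]
      exact hdiag i _ (ht1 i i)
    · exact B.H_indepB hD hed' hij (ht1 i j) (ht2 i j) hi hj
  have hu_self : ∀ i, u i i = 0 := fun i => hdiag i _ (ht1 i i)
  have hu_symm : ∀ i j, u i j = u j i := by
    intro i j
    rw [hu_eq j i (t i j) (ht2 i j) (ht1 i j), B.H_symm]
  refine ⟨u, hu_eq, ?_, hthird'⟩
  intro i j l
  by_cases hij : i = j
  · subst hij
    rw [hu_self, zero_add]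
  by_cases hil : i = l
  · subst hil
    rw [hu_self, hu_symm j i, hself2]
  by_cases hjl : j = l
  · subst hjl
    rw [hu_self, add_zero]
  have h1 := B.H_coc hij hjl hil
  rw [← hu_eq i j l hil hjl, ← hu_eq j l i (Ne.symm hij) (Ne.symm hil),
    ← hu_eq i l j hij (Ne.symm hjl)] at h1
  linear_combination h1 - hself2 (u i l)

/-- the canonical square roots -/
theorem exists_δ {V' : ValuationSubring A} {q : ℕ} (hD : D.OkB V' q)
    (hed' : ∀ i j, i ≠ j → IsU V' (B.e i - B.e j)) (hY : 3 ≤ Fintype.card Y) :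
    ∃ δ : Y → Y → M,
      (∀ i j, δ i j ^ 2 = (B.z - D.ι (B.e i)) * (B.z - D.ι (B.e j))) ∧
      (∀ i j l, δ i j * δ j l = (B.z - D.ι (B.e j)) * δ i l) ∧
      ∀ τ : A ≃ₐ[k] A, (∀ z, τ z ∈ D.V ↔ z ∈ D.V) → (∀ z, τ z ∈ D.S ↔ z ∈ D.S) →
        ∀ π' : Equiv.Perm Y, (∀ i, τ (B.e i) = B.e (π' i)) → D.s τ B.z = B.z → ∀ i j,
          D.s τ (δ i j) = δ (π' i) (π' j) := by
  obtain ⟨u, hu, hcoc, hthird⟩ := B.exists_u hD hed' hY
  refine ⟨fun i j => sg M (u i j) * (D.ι D.p * (B.γ i * B.γ j)), ?_, ?_, ?_⟩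
  · intro i j
    rw [B.hzγ, B.hzγ, mul_pow, sg_sq]
    ring
  · intro i j l
    beta_reduce
    rw [B.hzγ, ← hcoc i j l, sg_add]
    ring
  · intro τ hV hS π' hπ' hz i j
    obtain ⟨l, hi, hj⟩ := hthird i j
    set B' := B.wth τ hV hS π' hπ' hz with hB'
    have h1 := B'.Hφ hi hj
    have h2 : B'.H (B'.π i) (B'.π j) (B'.π l) = u (π' i) (π' j) := by
      rw [hu (π' i) (π' j) (π' l) (fun h => hi (π'.injective h)) (fun h => hj (π'.injective h))]
      exact B.wth_H τ hV hS π' hπ' hz _ _ _ (fun h => hi (π'.injective h))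
        (fun h => hj (π'.injective h))
    have h3 : B'.H i j l = u i j := by
      rw [hu i j l hi hj]
      exact B.wth_H τ hV hS π' hπ' hz _ _ _ hi hj
    rw [h2, h3] at h1
    have h4 : ∀ i, D.s τ (B.γ i) = sg M (B'.yy i) * B.γ (π' i) := fun i => B'.hyy i
    have h5 : τ D.p = D.p := τ.commutes _
    beta_reduce
    rw [map_mul, sg_map, map_mul, map_mul, D.hι, h5, h4, h4, h1, sg_add, sg_add]
    ring

end Gm

end Dat

theorem sign : SIGN.{u, v, w} := by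
  intro k A M _ _ _ _ _ _ _ D V' q hD hS X _ _ hX4 θ hθS hθd' π hπ x hx htr r hT
  have hθd : ∀ i j, i ≠ j → IsU D.V (θ i - θ j) := fun i j h => (hθd' i j h).mono hD.hVV
  have hxRS : x ∈ D.RS := fun σ _ => hx σ
  have hne : ∀ i, x - D.ι (θ i) ≠ 0 := fun i h => htr (θ i) (sub_eq_zero.1 h).symm
  have hmem : ∀ i, x - D.ι (θ i) ∈ D.RS := fun i => sub_mem hxRS (D.ι_mem (hθS i))
  have hr : π r = r := hT.fix hX4 π hπ hx
  have zsub : ∀ i, i ≠ r → (x - D.ι (θ r))⁻¹ - D.ι ((θ i - θ r)⁻¹) =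
      (x - D.ι (θ i)) / ((x - D.ι (θ r)) * D.ι (θ r - θ i)) := by
    intro i h
    have h1 : D.ι (θ i) - D.ι (θ r) ≠ 0 := by
      rw [← map_sub]
      exact (_root_.map_ne_zero _).2 (hθd _ _ h).1
    have h2 : D.ι (θ r) - D.ι (θ i) ≠ 0 := by
      intro h3
      apply h1
      linear_combination -h3
    have h3 := hne r
    rw [map_inv₀, map_sub, map_sub]
    field_simp
    ring
  -- the `γ i`
  have hγ : ∀ i : {i // i ≠ r}, ∃ w ∈ D.RS,
      (x - D.ι (θ r))⁻¹ - D.ι ((θ i - θ r)⁻¹) = D.ι D.p * w ^ 2 := by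
    intro i
    obtain ⟨n, hn⟩ := hT.ex i r
    refine Dat.Par.exists_odd (j := n) ?_ (hT.odd i i.2 n hn)
    rw [zsub i i.2]
    have h1 := (Dat.Par.const_unit (D := D) (inv_mem (sub_mem (hθS r) (hθS i)))
      (hθd _ _ (Ne.symm i.2)).inv).mul hn
    rw [zero_add, map_inv₀] at h1
    convert h1 using 1
    have h3 := hne r
    have h4 : D.ι (θ r - θ i) ≠ 0 := (_root_.map_ne_zero _).2 (hθd _ _ (Ne.symm i.2)).1
    field_simp
  choose γ hγ1 hγ2 using hγ
  have hπr : ∀ π : Equiv.Perm X, π r = r → ∀ i, i ≠ r ↔ π i ≠ r := by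
    intro π hr i
    constructor
    · intro h h1
      apply h
      apply π.injective
      rw [h1, hr]
    · rintro h rfl
      exact h hr
  have hinv' : ∀ i : {i // i ≠ r}, IsU V' (θ i - θ r) := fun i => hθd' _ _ i.2
  have hed' : ∀ i j : {i // i ≠ r}, i ≠ j → IsU V' ((θ i - θ r)⁻¹ - (θ j - θ r)⁻¹) := by
    intro i j hij
    have h3 : (θ i - θ r)⁻¹ - (θ j - θ r)⁻¹ =
        (θ j - θ i) * ((θ i - θ r)⁻¹ * (θ j - θ r)⁻¹) := by
      have h4 := (hinv' i).1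
      have h5 := (hinv' j).1
      field_simp
      ring
    rw [h3]
    exact (hθd' _ _ (fun h => hij (Subtype.ext h.symm))).mul ((hinv' i).inv.mul (hinv' j).inv)
  let G : D.Gm {i // i ≠ r} :=
    { e := fun i => (θ i - θ r)⁻¹
      heS := fun i => inv_mem (sub_mem (hθS _) (hθS _))
      hed := fun i j hij => (hed' i j hij).mono hD.hVV
      π := π.subtypeEquiv (hπr π hr)
      hπ := by
        intro i
        rw [map_inv₀, map_sub, hπ, hπ, hr]
        rfl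
      z := (x - D.ι (θ r))⁻¹
      hφz := by
        rw [map_inv₀, map_sub, hx, D.hι, hπ, hr]
      htr := by
        intro a h
        refine htr (a⁻¹ + θ r) ?_
        rw [map_add, map_inv₀, h, inv_inv, sub_add_cancel]
      γ := γ
      hγ := hγ1
      hzγ := hγ2
      hsq := by
        intro i j l hil hjl
        have hrel : ∀ i l : {i // i ≠ r}, γ i ^ 2 - γ l ^ 2 =
            D.ι (((θ l - θ r)⁻¹ - (θ i - θ r)⁻¹) / D.p) := by
          intro i l
          rw [map_div₀, eq_div_iff Dat.ιp0, map_sub]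
          linear_combination hγ2 l - hγ2 i
        have hne : ∀ i l : {i // i ≠ r}, i ≠ l →
            ((θ l - θ r)⁻¹ - (θ i - θ r)⁻¹) / D.p ≠ 0 := by
          intro i l hil
          exact div_ne_zero (hed' l i (Ne.symm hil)).1 D.p0
        exact hS (γ i) (γ j) (γ l) _ _ (hne i l hil) (hne j l hjl) (hrel i l) (hrel j l) }
  have hY : 3 ≤ Fintype.card {i // i ≠ r} := by
    rw [Fintype.card_subtype_compl, Fintype.card_subtype_eq]
    omega
  obtain ⟨δ, hδ1, hδ2, hδ3⟩ := G.exists_δ hD hed' hY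
  -- the normalised functions
  have het : ∀ i : {i // i ≠ r}, et D.ι θ x r i = (x - D.ι (θ r)) * (G.z - D.ι (G.e i)) := by
    intro i
    change _ = (x - D.ι (θ r)) * ((x - D.ι (θ r))⁻¹ - D.ι ((θ i - θ r)⁻¹))
    rw [zsub i i.2]
    have h3 := hne r
    have h4 : D.ι (θ r - θ i) ≠ 0 := (_root_.map_ne_zero _).2 (hθd _ _ (Ne.symm i.2)).1
    unfold et
    field_simp
  classical
  refine ⟨fun i j => if h : i ≠ r ∧ j ≠ r then (x - D.ι (θ r)) * δ ⟨i, h.1⟩ ⟨j, h.2⟩ else 0,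
    ?_, ?_, ?_⟩
  · intro i j hi hj
    beta_reduce
    rw [dif_pos ⟨hi, hj⟩, mul_pow, hδ1, het ⟨i, hi⟩, het ⟨j, hj⟩]
    ring
  · intro i j l hi hj hl
    beta_reduce
    rw [dif_pos ⟨hi, hj⟩, dif_pos ⟨hj, hl⟩, dif_pos ⟨hi, hl⟩, het ⟨j, hj⟩]
    linear_combination (x - D.ι (θ r)) ^ 2 * hδ2 ⟨i, hi⟩ ⟨j, hj⟩ ⟨l, hl⟩
  · intro τ hV hS π' hπ' i j hi hj
    have hT' : (D.wth τ hV hS).Typ x θ r :=
      ⟨fun i hi n hn => hT.odd i hi n hn, fun i j hi hj n hn => hT.even i j hi hj n hn,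
        fun i j => hT.ex i j⟩
    have hr' : π' r = r := hT'.fix hX4 π' hπ' hx
    have hi' := (hπr π' hr' i).1 hi
    have hj' := (hπr π' hr' j).1 hj
    beta_reduce
    rw [dif_pos ⟨hi, hj⟩, dif_pos ⟨hi', hj'⟩, map_mul, map_sub, hx, D.hι, hπ', hr']
    congr 1
    have h1 := hδ3 τ hV hS (π'.subtypeEquiv (hπr π' hr')) (by
      intro i
      change τ ((θ i - θ r)⁻¹) = (θ (π' i) - θ r)⁻¹
      rw [map_inv₀, map_sub, hπ', hπ', hr']) (by
      change D.s τ ((x - D.ι (θ r))⁻¹) = (x - D.ι (θ r))⁻¹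
      rw [map_inv₀, map_sub, hx, D.hι, hπ', hr']) ⟨i, hi⟩ ⟨j, hj⟩
    exact h1

end Pool.Agent.W623.SecC
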