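import Pool.Agent.W623.SecF.Fg
import Pool.Agent.W623.SecH.LocB

/-! # Finitely generated residue fields, and henselian valuation rings -/

namespace Pool.Agent.W623.SecH

open Pool.Agent.W620.SC Polynomial Pool.Agent.W623.SecD Pool.Agent.W623.SecC IntermediateField

universe u u' v w

variable {k : Type u} [Field k] (A : ValuationSubring k)
  {K : Type u'} [Field K] (ρ : A →+* K) (hρ : Function.Surjective ρ)
  (f : A[X]) (hlc : IsUnit f.leadingCoeff) (hs : (f.map ρ).Separable)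
  [CharZero k] [IsDiscreteValuationRing A] (ϖ : A) (hϖ : Irreducible ϖ) (a : k) (t : A)
    (ht : IsUnit t) (m : ℤ) (hm : Odd m)
    (ha : a = algebraMap A k t * algebraMap A k ϖ ^ m) (hev : Even f.natDegree)

include hρ hlc hs hϖ ht hm ha hev in
theorem fg_canon (h2K : (2 : K) ≠ 0) (hval : ∀ S : Finset K, ∃ O : ValuationSubring K,
      Finite (IsLocalRing.ResidueField O) ∧ (2 : K)⁻¹ ∈ O ∧ ∀ s ∈ S, s ∈ O)
    {F : Type v} {Ω : Type w}
    [Field F] [Field Ω] [Algebra k F] [Algebra F Ω]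
    [Algebra k Ω] [IsScalarTower k F Ω] [IsAlgClosed Ω] [Algebra.IsAlgebraic F Ω]
    (h4 : 4 ≤ f.natDegree)
    (U : Set (ValuationSubring F)) (hU : ∀ O ∈ U, ∀ c : k, algebraMap k F c ∈ O)
    (G : GSection k F Ω U)
    (x y : F) (hxy : algebraMap k F a * y ^ 2 = aeval x (f.map (algebraMap A k)))
    (hx : Transcendental k x) :
    ∃ V : ValuationSubring (algebraicClosure k Ω),
      (∀ a ∈ A, algebraMap k (algebraicClosure k Ω) a ∈ V) ∧
      (∀ a ∈ A.nonunits, algebraMap k (algebraicClosure k Ω) a ∈ V.nonunits) ∧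
      Canon hU G x y (f.map (algebraMap A k)) {τ | ∀ z, τ z ∈ V ↔ z ∈ V} := by
  obtain ⟨O, hOA, g, hg, hfin, h2, hlcg, hdeg, hsg⟩ := exists_O' A ρ hρ f hlc hs h2K hval
  have hgk : g.map (algebraMap O k) = f.map (algebraMap A k) := by
    have h1 : (algebraMap A k).comp (ValuationSubring.inclusion O A hOA) = algebraMap O k := by
      ext b
      rfl
    rw [← h1, ← Polynomial.map_map, hg]
  have h := local_canon O A hOA allA7 allA8b partB2b h2 g hlcg hsg (by rwa [hdeg])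
    (by rwa [hdeg]) ϖ hϖ a t ht m hm ha U hU G x y (by rw [hgk, hxy])
    (Pool.Agent.W623.SecE.tr_const (k := k) (Ω := Ω) hx)
  rwa [hgk] at h

include hρ hlc hs hϖ ht hm ha hev in
theorem hens_canon (hH : HENS.{u, w}) [HenselianLocalRing A] (h2K : (2 : K) ≠ 0)
    (hval : ∀ S : Finset K, ∃ O : ValuationSubring K,
      Finite (IsLocalRing.ResidueField O) ∧ (2 : K)⁻¹ ∈ O ∧ ∀ s ∈ S, s ∈ O)
    {F : Type v} {Ω : Type w}
    [Field F] [Field Ω] [Algebra k F] [Algebra F Ω]
    [Algebra k Ω] [IsScalarTower k F Ω] [IsAlgClosed Ω] [Algebra.IsAlgebraic F Ω]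
    (h4 : 4 ≤ f.natDegree)
    (U : Set (ValuationSubring F)) (hU : ∀ O ∈ U, ∀ c : k, algebraMap k F c ∈ O)
    (G : GSection k F Ω U)
    (x y : F) (hxy : algebraMap k F a * y ^ 2 = aeval x (f.map (algebraMap A k)))
    (hx : Transcendental k x) :
    Canon hU G x y (f.map (algebraMap A k)) Set.univ := by
  obtain ⟨V, hV1, hV2, h⟩ := fg_canon A ρ hρ f hlc hs ϖ hϖ a t ht m hm ha hev h2K hval h4 U hU G x
    y hxy hx
  have hac : IsAlgClosure k (algebraicClosure k Ω) := inferInstance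
  have huniv : {τ : algebraicClosure k Ω ≃ₐ[k] algebraicClosure k Ω | ∀ z, τ z ∈ V ↔ z ∈ V} =
      Set.univ := by
    ext τ
    exact ⟨fun _ => trivial, fun _ => hH k (algebraicClosure k Ω) A V hV1 hV2 τ⟩
  rwa [huniv] at h

end Pool.Agent.W623.SecH
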