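import Mathlib
open Polynomial

/-! # The valuation ring of `ℚ_p` as a henselian discrete valuation ring -/

namespace Pool.Agent.W623.SecH

/-- the valuation ring of `ℚ_p` -/
noncomputable def Zp (p : ℕ) [Fact p.Prime] : ValuationSubring ℚ_[p] where
  toSubring := PadicInt.subring p
  mem_or_inv_mem' := by
    intro x
    rcases le_total ‖x‖ 1 with h | h
    · exact Or.inl h
    · right
      show ‖x⁻¹‖ ≤ 1
      rw [norm_inv]
      exact inv_le_one_of_one_le₀ h

/-- `ℤ_p` as a valuation ring of `ℚ_p` -/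
noncomputable def eZp (p : ℕ) [Fact p.Prime] : ℤ_[p] ≃+* Zp p where
  toFun x := ⟨(x : ℚ_[p]), x.2⟩
  invFun x := ⟨(x : ℚ_[p]), x.2⟩
  left_inv _ := rfl
  right_inv _ := rfl
  map_mul' _ _ := rfl
  map_add' _ _ := rfl

instance (p : ℕ) [Fact p.Prime] : IsDiscreteValuationRing (Zp p) :=
  IsDiscreteValuationRing.RingEquivClass.isDiscreteValuationRing (eZp p)

instance henselZp (p : ℕ) [Fact p.Prime] : HenselianLocalRing ℤ_[p] where
  is_henselian := by
    intro f hf a₀ h1 h2
    have h := (IsAdicComplete.henselianRing ℤ_[p] (IsLocalRing.maximalIdeal ℤ_[p])).is_henselian f hf a₀ h1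
      (h2.map _)
    exact h

theorem hensel_of_equiv {A B : Type*} [CommRing A] [CommRing B] [HenselianLocalRing A]
    [IsLocalRing B] (e : A ≃+* B) : HenselianLocalRing B where
  is_henselian := by
    intro f hf a₀ h1 h2
    have hmem : ∀ b : B, b ∈ IsLocalRing.maximalIdeal B ↔
        e.symm b ∈ IsLocalRing.maximalIdeal A := by
      intro b
      rw [IsLocalRing.mem_maximalIdeal, IsLocalRing.mem_maximalIdeal, mem_nonunits_iff,
        mem_nonunits_iff, MulEquiv.isUnit_map]
    have hev : ∀ (g : B[X]) (b : B), (g.map (e.symm : B →+* A)).eval (e.symm b) =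
        e.symm (g.eval b) := by
      intro g b
      have h := eval₂_at_apply (p := g) (e.symm : B →+* A) b
      rw [eval_map]
      exact h
    obtain ⟨a, h3, h4⟩ := HenselianLocalRing.is_henselian (f.map (e.symm : B →+* A)) (hf.map _)
      (e.symm a₀) (by rw [hev]; exact (hmem _).1 h1)
      (by rw [derivative_map, hev]; exact h2.map _)
    refine ⟨e a, ?_, ?_⟩
    · have h5 := hev f (e a)
      rw [RingEquiv.symm_apply_apply] at h5
      rw [IsRoot.def] at h3 ⊢
      rw [h3] at h5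
      exact (map_eq_zero_iff e.symm e.symm.injective).1 h5.symm
    · rw [hmem, map_sub, RingEquiv.symm_apply_apply]
      exact h4

instance (p : ℕ) [Fact p.Prime] : HenselianLocalRing (Zp p) := hensel_of_equiv (eZp p)

theorem odd_val (p : ℕ) [Fact p.Prime] (a : ℚ_[p]) (ha : Odd a.valuation) :
    ∃ (π t : Zp p) (m : ℤ), Irreducible π ∧ IsUnit t ∧ Odd m ∧ a = (t : ℚ_[p]) * (π : ℚ_[p]) ^ m := by
  have hp : (p : ℝ) ≠ 0 := by exact_mod_cast (Fact.out : p.Prime).ne_zero
  have hpp : (p : ℚ_[p]) ≠ 0 := by exact_mod_cast (Fact.out : p.Prime).ne_zero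
  have ha0 : a ≠ 0 := by
    rintro rfl
    simp at ha
  have hn : ‖a * (p : ℚ_[p]) ^ (-a.valuation)‖ = 1 := by
    rw [norm_mul, Padic.norm_eq_zpow_neg_valuation ha0, Padic.norm_p_zpow, ← zpow_add₀ hp]
    simp
  let u : ℤ_[p] := ⟨a * (p : ℚ_[p]) ^ (-a.valuation), hn.le⟩
  have hu : IsUnit u := PadicInt.isUnit_iff.2 hn
  refine ⟨eZp p (p : ℤ_[p]), eZp p u, a.valuation, ?_, hu.map _, ha, ?_⟩
  · exact (MulEquiv.irreducible_iff (eZp p)).2 PadicInt.irreducible_p
  · show a = (a * (p : ℚ_[p]) ^ (-a.valuation)) * (((p : ℤ_[p]) : ℚ_[p])) ^ a.valuation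
    rw [PadicInt.coe_natCast, mul_assoc, ← zpow_add₀ hpp, neg_add_cancel, zpow_zero, mul_one]

end Pool.Agent.W623.SecH
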