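import Pool.Agent.W623.SecH.KtA

/-! # The canonical square roots over `K(t)` -/

namespace Pool.Agent.W623.SecH

open Pool.Agent.W620.SC Polynomial IntermediateField Pool.Agent.W623.SecD Pool.Agent.W623.SecC
  Pool.Agent.W623.SecE

universe u v w

variable {K : Type} {k : Type u} {F : Type v} {Ω : Type w} [Field K] [Field k] [Field F] [Field Ω]
  [Algebra K k] [Algebra k F] [Algebra F Ω] [Algebra k Ω] [IsScalarTower k F Ω]
  [Algebra K (algebraicClosure k Ω)] [IsScalarTower K k (algebraicClosure k Ω)]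

section

variable [CharZero k] [IsAlgClosed Ω] [Algebra.IsAlgebraic F Ω]
  (hA7 : PartA7.{w, w}) (hA8 : PartA8b.{w, w})
  (U : Set (ValuationSubring F)) (hU : ∀ O ∈ U, ∀ c : k, algebraMap k F c ∈ O)
  (G : GSection k F Ω U) {t : k} {f : K[X]} {α : algebraicClosure k Ω}
  (P : PD K (algebraicClosure k Ω) t f α)

/-- the data of the section at a place -/
noncomputable def PD.dat : Dat k (algebraicClosure k Ω) (unramified F Ω U) :=
  mkDat U hU G P.V P.S P.ϖ P.ϖ0 P.ϖn P.sq P.tame P.φ P.φV (P.hSτ P.φ P.φV)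

omit [IsScalarTower K k (algebraicClosure k Ω)] in
lemma PD.okB (hA7 : PartA7.{w, w}) (hA8 : PartA8b.{w, w}) : (P.dat U hU G).OkB P.V' P.q :=
  ⟨hA8, P.hVV, P.φV', P.h2, P.hq2, P.hq,
    mk_roots U hU G P.V P.S P.ϖ P.ϖ0 P.ϖn P.sq P.tame P.φ P.φV (P.hSτ P.φ P.φV) hA7⟩

omit [IsScalarTower K k (algebraicClosure k Ω)] in
lemma PD.hasSq : (P.dat U hU G).HasSq :=
  mk_sq U hU G P.V P.S P.ϖ P.ϖ0 P.ϖn P.sq P.tame P.φ P.φV (P.hSτ P.φ P.φV)

omit [IsScalarTower K k (algebraicClosure k Ω)] in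
/-- elements fixed by the group of the constants are fixed by the group of `S` -/
lemma PD.mem_RS (z : unramified F Ω U)
    (hz : ∀ σ ∈ (Lc K (algebraicClosure k Ω) k).fixingSubgroup, G.toHom σ z = z) :
    z ∈ (P.dat U hU G).RS := by
  intro σ hσ
  refine hz σ ?_
  rw [IntermediateField.mem_fixingSubgroup_iff] at hσ ⊢
  exact fun x hx => hσ x (P.hLS hx)

omit [IsScalarTower K k (algebraicClosure k Ω)] in
/-- if the parity of `u` is even and `b ^ 2 u` is the square of a fixed element, then `b ^ 2` has even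
valuation -/
lemma PD.even_of (b : algebraicClosure k Ω) (hb : b ≠ 0)
    (hbS : b ^ 2 ∈ Lc K (algebraicClosure k Ω) k) (u : unramified F Ω U) (n : ℤ) (hn : Even n)
    (hu : (P.dat U hU G).Par u n) (γ : unramified F Ω U)
    (hγ : ∀ σ ∈ (Lc K (algebraicClosure k Ω) k).fixingSubgroup, G.toHom σ γ = γ)
    (hγu : γ ^ 2 = constHom hU (b ^ 2) * u) (j : ℤ)
    (hj : IsU P.V (b ^ 2 / (algebraMap k _ t - α) ^ j)) : Even j := by
  have hac : IsAlgClosure k (algebraicClosure k Ω) := inferInstance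
  have hkb : IsAlgClosed (algebraicClosure k Ω) := hac.1
  set D := P.dat U hU G with hD
  have hγ0 : γ ≠ 0 := by
    rintro rfl
    rw [zero_pow (by norm_num)] at hγu
    exact mul_ne_zero ((_root_.map_ne_zero _).2 (pow_ne_zero 2 hb)) hu.ne hγu.symm
  have h1 : D.Par (γ ^ 2) 0 := Dat.Par.sq (P.mem_RS U hU G γ hγ) hγ0
  have hp0 : algebraMap k (algebraicClosure k Ω) P.ϖ ≠ 0 := fun h => P.hϖα.1 (by rw [h, zero_div])
  have ht0 : algebraMap k (algebraicClosure k Ω) t - α ≠ 0 := fun h =>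
    P.hϖα.1 (by rw [h, div_zero])
  have h2 : D.Par (constHom hU (b ^ 2)) j := by
    refine Dat.Par.const (D := D) (P.hLS hbS) ?_
    have h3 : b ^ 2 / algebraMap k _ P.ϖ ^ j = (b ^ 2 / (algebraMap k _ t - α) ^ j) *
        ((algebraMap k _ P.ϖ / (algebraMap k _ t - α)) ^ j)⁻¹ := by
      rw [div_zpow]
      have h3 : (algebraMap k (algebraicClosure k Ω) t - α) ^ j ≠ 0 := zpow_ne_zero _ ht0
      have h4 : algebraMap k (algebraicClosure k Ω) P.ϖ ^ j ≠ 0 := zpow_ne_zero _ hp0
      field_simp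
    change IsU P.V (b ^ 2 / algebraMap k _ P.ϖ ^ j)
    rw [h3]
    exact IsU.mul hj (isU_zpow P.hϖα j).inv
  have h3 := h2.mul hu
  rw [← hγu] at h3
  have h4 := h3.unique h1
  apply zmod2_even
  push_cast at h4
  rw [zmod2_of_even hn, add_zero] at h4
  exact h4

end

lemma par_et {k A M : Type*} [Field k] [Field A] [Field M] [Algebra k A] [CharZero k]
    [IsAlgClosed A] [Algebra.IsAlgebraic k A] (D : Dat k A M) {X : Type*} (θ : X → A) (x : M)
    (hx : x ∈ D.RS) (r i j : X) (hi : i ≠ r) (hj : j ≠ r) (hθS : ∀ i, θ i ∈ D.S)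
    (hθd : ∀ i j, i ≠ j → IsU D.V (θ i - θ j)) (hne : ∀ i, x - D.ι (θ i) ≠ 0) {n : ℤ}
    (h : D.Par ((x - D.ι (θ i)) / (x - D.ι (θ j))) n) :
    D.Par (et D.ι θ x r i * et D.ι θ x r j) n := by
  have hmem : ∀ i, x - D.ι (θ i) ∈ D.RS := fun i => sub_mem hx (D.ι_mem (hθS i))
  have h1 := ((Dat.Par.const_unit (D := D) (inv_mem (mul_mem (sub_mem (hθS r) (hθS i))
    (sub_mem (hθS r) (hθS j)))) ((hθd _ _ hi.symm).mul (hθd _ _ hj.symm)).inv).mul h).mul
    (Dat.Par.sq (hmem j) (hne j))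
  rw [zero_add, add_zero] at h1
  convert h1 using 1
  unfold et
  have h2 : D.ι (θ r - θ i) ≠ 0 := (_root_.map_ne_zero _).2 (hθd _ _ hi.symm).1
  have h3 : D.ι (θ r - θ j) ≠ 0 := (_root_.map_ne_zero _).2 (hθd _ _ hj.symm).1
  have h4 := hne j
  rw [map_inv₀, map_mul]
  field_simp

theorem kt_canon [CharZero K] [CharZero k] [IsAlgClosed Ω] [Algebra.IsAlgebraic F Ω]
    (hA7 : PartA7.{w, w}) (hA8 : PartA8b.{w, w}) (hPl : PLACEKT.{u, w}) (hR : REPKT.{u, w})
    (hT : TAMEKT.{w, w}) (hTr : TRANS.{u, w}) (hSQ : KTSQ.{w, w}) (hE : EVENB.{w, w, u})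
    (U : Set (ValuationSubring F)) (hU : ∀ O ∈ U, ∀ c : k, algebraMap k F c ∈ O)
    (G : GSection k F Ω U) (t : k) (ht : Transcendental K t)
    (htop : IntermediateField.adjoin K {t} = (⊤ : IntermediateField K k))
    (hfg : ∃ s : Finset K, Subfield.closure (s : Set K) = ⊤) (f : K[X]) (hf : f.Separable)
    (hev : Even f.natDegree) (h4 : 4 ≤ f.natDegree) (x y : F)
    (hxy : algebraMap k F t * y ^ 2 = aeval x (f.map (algebraMap K k)))
    (hx : Transcendental k x) :
    Canon hU G x y (f.map (algebraMap K k)) Set.univ := by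
  classical
  have hac : IsAlgClosure k (algebraicClosure k Ω) := inferInstance
  have hkb : IsAlgClosed (algebraicClosure k Ω) := hac.1
  have : Normal k (algebraicClosure k Ω) := IsAlgClosure.normal k _
  have hGal : IsGalois k (algebraicClosure k Ω) := ⟨⟩
  have hacK : IsAlgClosure K (algebraicClosure K (algebraicClosure k Ω)) := inferInstance
  have hkK : IsAlgClosed (algebraicClosure K (algebraicClosure k Ω)) := hacK.1
  have hch : CharZero (algebraicClosure k Ω) :=
    charZero_of_injective_algebraMap (algebraMap k (algebraicClosure k Ω)).injective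
  have htr := tr_const (k := k) (Ω := Ω) hx
  have hf0 : f ≠ 0 := hf.ne_zero
  set g := f.map (algebraMap K k) with hg
  have hgs : g.Separable := hf.map
  have hg0 : g ≠ 0 := hgs.ne_zero
  have hgdeg : g.natDegree = f.natDegree := natDegree_map _
  have hy0 : y ≠ 0 := by
    rintro rfl
    rw [zero_pow (by norm_num), mul_zero] at hxy
    exact hg0 ((transcendental_iff.1 hx) g hxy.symm)
  set P := g.map (algebraMap k (algebraicClosure k Ω)) with hP
  have hP0 : P ≠ 0 := (Polynomial.map_ne_zero_iff (algebraMap k _).injective).2 hg0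
  have hnd : P.roots.Nodup := nodup_roots hgs.map
  have hcomp' : ∀ g : k[X], (g.map (algebraMap k F)).map (algebraMap F Ω) =
      (g.map (algebraMap k (algebraicClosure k Ω))).map
        (algebraMap (algebraicClosure k Ω) Ω) := by
    intro g
    rw [Polynomial.map_map, Polynomial.map_map, ← IsScalarTower.algebraMap_eq k F Ω,
      ← IsScalarTower.algebraMap_eq k (algebraicClosure k Ω) Ω]
  have hcomp := hcomp' g
  have heval : (g.map (algebraMap k F)).eval x = aeval x g := by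
    rw [eval_map_algebraMap]
  have hlcP : P.leadingCoeff = algebraMap k _ g.leadingCoeff :=
    leadingCoeff_map_of_injective (algebraMap k _).injective g
  have hlcg0 : g.leadingCoeff ≠ 0 := leadingCoeff_ne_zero.2 hg0
  have hlcg : g.leadingCoeff = algebraMap K k f.leadingCoeff :=
    leadingCoeff_map_of_injective (algebraMap K k).injective f
  have ht0 : t ≠ 0 := by
    rintro rfl
    exact ht isAlgebraic_zero
  set c : algebraicClosure k Ω := algebraMap k _ (t / g.leadingCoeff) with hc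
  have hc0 : c ≠ 0 := (_root_.map_ne_zero _).2 (div_ne_zero ht0 hlcg0)
  have hxyΩ : (c : Ω) * algebraMap F Ω y ^ 2 =
      ∏ i : Rt P, (algebraMap F Ω x - ((i : algebraicClosure k Ω) : Ω)) := by
    have h1 := eq_roots P hP0 hnd P dvd_rfl _ hcomp x
    rw [heval, ← hxy, RQ_self, map_mul, map_pow, ← IsScalarTower.algebraMap_apply] at h1
    have h3 : ((P.leadingCoeff : algebraicClosure k Ω) : Ω) ≠ 0 := by
      change algebraMap (algebraicClosure k Ω) Ω P.leadingCoeff ≠ 0
      exact (_root_.map_ne_zero _).2 (leadingCoeff_ne_zero.2 hP0)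
    have h5 : (c : Ω) = algebraMap k Ω t / ((P.leadingCoeff : algebraicClosure k Ω) : Ω) := by
      change algebraMap (algebraicClosure k Ω) Ω c = _ / algebraMap (algebraicClosure k Ω) Ω _
      rw [hc, hlcP, map_div₀, map_div₀, ← IsScalarTower.algebraMap_apply]
    rw [h5, div_mul_eq_mul_div, h1, mul_div_cancel_left₀ _ h3]
  set X := Rt P with hX
  set θ : X → algebraicClosure k Ω := fun i => (i : algebraicClosure k Ω) with hθdef
  have hθinj : Function.Injective θ := Subtype.val_injective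
  have hcardX : Fintype.card X = f.natDegree := by
    rw [Fintype.card_coe, Multiset.toFinset_card_of_nodup hnd, ← hgdeg,
      ← natDegree_map (p := g) (algebraMap k (algebraicClosure k Ω))]
    exact (IsAlgClosed.splits P).natDegree_eq_card_roots.symm
  have hroots : ∀ z : algebraicClosure k Ω, aeval z g = 0 ↔ ∃ i : X, θ i = z := by
    intro z
    have h1 : z ∈ P.roots.toFinset ↔ aeval z g = 0 := by
      rw [Multiset.mem_toFinset, mem_roots hP0, IsRoot.def, hP, eval_map]
      rfl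
    rw [← h1]
    exact ⟨fun h => ⟨⟨z, h⟩, rfl⟩, fun ⟨i, hi⟩ => hi ▸ i.2⟩
  have hrootf : ∀ i : X, aeval (θ i) f = 0 := by
    intro i
    have h1 := (hroots (θ i)).2 ⟨i, rfl⟩
    rwa [hg, aeval_map_algebraMap] at h1
  have hθalg : ∀ i, IsAlgebraic K (θ i) := fun i => ⟨f, hf0, hrootf i⟩
  have hθL : ∀ i, θ i ∈ Lc K (algebraicClosure k Ω) k := fun i =>
    IntermediateField.subset_adjoin k _ (hθalg i)
  have hdV' : ∀ {α : algebraicClosure k Ω} (P : PD K (algebraicClosure k Ω) t f α) (i j : X),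
      i ≠ j → IsU P.V' (θ i - θ j) := fun P i j hij =>
    P.hd _ _ (hrootf i) (hrootf j) (hθinj.ne hij)
  have hratio := fun i i' => ratio_root U hU θ hθinj x y hy0 c hc0 hxyΩ htr i i'
  set ι := constHom (F := F) (Ω := Ω) hU with hιdef
  set x' := algebraMap F (unramified F Ω U) x with hx'
  set y' := algebraMap F (unramified F Ω U) y with hy'
  have hy0' : y' ≠ 0 := (_root_.map_ne_zero _).2 hy0
  have htrM : ∀ a, ι a ≠ x' := fun a h =>
    htr a (congrArg (algebraMap (unramified F Ω U) Ω) h)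
  have hne : ∀ i, x' - ι (θ i) ≠ 0 := fun i h => htrM _ (sub_eq_zero.1 h).symm
  have hxyM : ι c * y' ^ 2 = ∏ i : X, (x' - ι (θ i)) := by
    apply (algebraMap (unramified F Ω U) Ω).injective
    rw [map_mul, map_pow, map_prod]
    exact hxyΩ
  have hgι : ∀ σ a, G.toHom σ (ι a) = ι (σ a) := fun σ a =>
    Subtype.ext (G.compat σ a (constHom hU a) rfl)
  -- the place at zero
  obtain ⟨P0⟩ := exists_PD hPl hR hT t ht htop hfg f hf (0 : algebraicClosure k Ω)
    isAlgebraic_zero
  have hP0ϖ : P0.ϖ = t := P0.hϖt rfl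
  have hunitK : ∀ {α : algebraicClosure k Ω} (P : PD K (algebraicClosure k Ω) t f α) (a : K),
      a ≠ 0 → IsU P.V (algebraMap k (algebraicClosure k Ω) (algebraMap K k a)) := by
    intro α P a ha
    have h1 : ∀ a : K, IsAlgebraic K (algebraMap k (algebraicClosure k Ω) (algebraMap K k a)) := by
      intro a
      rw [← IsScalarTower.algebraMap_apply]
      exact isAlgebraic_algebraMap a
    refine ⟨?_, P.hc _ (h1 a), ?_⟩
    · rw [Ne, map_eq_zero, map_eq_zero]
      exact ha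
    · rw [← map_inv₀, ← map_inv₀]
      exact P.hc _ (h1 _)
  have hlcf0 : f.leadingCoeff ≠ 0 := leadingCoeff_ne_zero.2 hf0
  have hcu0 : IsU P0.V (c / algebraMap k (algebraicClosure k Ω) P0.ϖ ^ (1 : ℤ)) := by
    have h1 : c / algebraMap k (algebraicClosure k Ω) P0.ϖ ^ (1 : ℤ) =
        (algebraMap k (algebraicClosure k Ω) (algebraMap K k f.leadingCoeff))⁻¹ := by
      have h2 : algebraMap k (algebraicClosure k Ω) t ≠ 0 := (_root_.map_ne_zero _).2 ht0
      rw [hP0ϖ, hc, hlcg, zpow_one, map_div₀]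
      field_simp
    rw [h1]
    exact (hunitK P0 _ hlcf0).inv
  obtain ⟨π0, hπ0⟩ := exists_perm θ hθinj g hroots P0.φ
  have hX4 : 4 ≤ Fintype.card X := by rw [hcardX]; exact h4
  have hXev : Even (Fintype.card X) := by rw [hcardX]; exact hev
  obtain ⟨r, hr⟩ := unr_mainC hA7 hA8 U hU G P0.V P0.S P0.ϖ P0.ϖ0 P0.ϖn P0.sq P0.tame P0.φ P0.φV
    (P0.hSτ P0.φ P0.φV) P0.V' P0.hVV P0.φV' P0.h2 P0.q P0.hq2 P0.hq hXev hX4 θ
    (fun i => P0.hLS (hθL i)) (hdV' P0) π0 hπ0 x y hy0 c (P0.S.algebraMap_mem _) 1 odd_one hcu0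
    hxyΩ htr
  obtain ⟨δ, hδ1, hδ2, hδ3⟩ := sign k (algebraicClosure k Ω) (unramified F Ω U)
    (P0.dat U hU G) P0.V' P0.q (P0.okB U hU G hA7 hA8) (P0.hasSq U hU G) X hX4 θ
    (fun i => P0.hLS (hθL i)) (hdV' P0) π0 hπ0 x' (fun σ => (G.toHom σ).commutes x) htrM r hr
  -- the parities at all places
  have hparities : ∀ α : algebraicClosure K (algebraicClosure k Ω),
      ∃ Pα : PD K (algebraicClosure k Ω) t f (α : algebraicClosure k Ω), ∀ i j, i ≠ r → j ≠ r →
        ∀ n : ℤ, (Pα.dat U hU G).Par ((x' - ι (θ i)) / (x' - ι (θ j))) n → Even n := by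
    intro α
    by_cases hα : (α : algebraicClosure k Ω) = 0
    · rw [hα]
      exact ⟨P0, fun i j hi hj n hn => hr.even i j hi hj n hn⟩
    · obtain ⟨Pα⟩ := exists_PD hPl hR hT t ht htop hfg f hf (α : algebraicClosure k Ω)
        (isAlgebraic_iff_isIntegral.2 α.2)
      refine ⟨Pα, fun i j _ _ n hn => ?_⟩
      obtain ⟨π1, hπ1⟩ := exists_perm θ hθinj g hroots Pα.φ
      refine hE k (algebraicClosure k Ω) (unramified F Ω U) (Pα.dat U hU G) Pα.V' Pα.q
        (Pα.okB U hU G hA7 hA8) X hXev θ (fun i => Pα.hLS (hθL i)) (hdV' Pα) π1 hπ1 x' y'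
        (fun σ => (G.toHom σ).commutes x) (fun σ => (G.toHom σ).commutes y) hy0' c
        (Pα.S.algebraMap_mem _) 0 (by decide) ?_ hxyM htrM hratio i j n hn
      change IsU Pα.V (c / algebraMap k (algebraicClosure k Ω) Pα.ϖ ^ (0 : ℤ))
      rw [zpow_zero, div_one, hc, map_div₀, hlcg]
      refine IsU.div ?_ (hunitK Pα _ hlcf0)
      have h1 : algebraMap k (algebraicClosure k Ω) t = α +
          (algebraMap k (algebraicClosure k Ω) t - α) := by ring
      rw [h1]
      refine isU_add_nonunit ⟨hα, Pα.hc _ (isAlgebraic_iff_isIntegral.2 α.2), Pα.hc _ ?_⟩ Pα.hα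
      exact (isAlgebraic_iff_isIntegral.2 α.2).inv
  -- the square roots are fixed by the group of the constants
  have hfixθ : ∀ σ ∈ (Lc K (algebraicClosure k Ω) k).fixingSubgroup, ∀ z ∈ Lc K (algebraicClosure k Ω) k,
      σ z = z := fun σ hσ z hz => (IntermediateField.mem_fixingSubgroup_iff _ _).1 hσ z hz
  have hL : ∀ i j, i ≠ r → j ≠ r → ∀ σ ∈ (Lc K (algebraicClosure k Ω) k).fixingSubgroup,
      G.toHom σ (δ i j) = δ i j := by
    intro i j hi hj
    have he0 : ∀ i, i ≠ r → et ι θ x' r i ≠ 0 := by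
      intro i hi
      unfold et
      exact div_ne_zero (hne i) ((_root_.map_ne_zero _).2 (sub_ne_zero.2 (hθinj.ne (Ne.symm hi))))
    have hefix : ∀ σ ∈ (Lc K (algebraicClosure k Ω) k).fixingSubgroup, ∀ i,
        G.toHom σ (et ι θ x' r i) = et ι θ x' r i := by
      intro σ hσ i
      unfold et
      rw [map_div₀, map_sub, hgι, hgι, map_sub, hfixθ σ hσ _ (hθL i), hfixθ σ hσ _ (hθL r),
        (G.toHom σ).commutes]
    have hδsq : δ i j ^ 2 = et ι θ x' r i * et ι θ x' r j := hδ1 i j hi hj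
    have hδ0 : δ i j ≠ 0 := by
      intro h0
      rw [h0, zero_pow (by norm_num)] at hδsq
      exact mul_ne_zero (he0 i hi) (he0 j hj) hδsq.symm
    set s : (algebraicClosure k Ω ≃ₐ[k] algebraicClosure k Ω) →* RingAut (unramified F Ω U) :=
      (toRingAutHom F (unramified F Ω U)).comp G.toHom with hs
    have hsa : ∀ σ z, s σ z = G.toHom σ z := fun σ z => rfl
    obtain ⟨E, hEfin, hE'⟩ := sec_cont U G (δ i j)
    obtain ⟨b, hb0, hb⟩ := exists_fixed_multiple s ι (fun σ a => hgι σ a)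
      (Lc K (algebraicClosure k Ω) k).fixingSubgroup (δ i j) hδ0 (by
      intro σ hσ
      have h1 : (s σ (δ i j)) ^ 2 = (δ i j) ^ 2 := by
        rw [← map_pow, hδsq, hsa, map_mul, hefix σ hσ, hefix σ hσ]
      rcases sq_eq_sq_iff_eq_or_eq_neg.1 h1 with h | h
      · exact ⟨1, by rw [map_one, one_mul, h]⟩
      · exact ⟨-1, by rw [map_neg, map_one, neg_one_mul, h]⟩) E hE'
    have hb2 : b ^ 2 ∈ Lc K (algebraicClosure k Ω) k := by
      apply mem_of_fixed
      intro σ hσ
      apply ι.injective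
      have h1 : ι (b ^ 2) = (ι b * δ i j) ^ 2 / (et ι θ x' r i * et ι θ x' r j) := by
        rw [mul_pow, hδsq, map_pow, mul_div_cancel_right₀ _ (mul_ne_zero (he0 i hi) (he0 j hj))]
      have h2 : G.toHom σ (ι b * δ i j) = ι b * δ i j := hb σ hσ
      rw [← hgι, h1, map_div₀, map_pow, h2, map_mul, hefix σ hσ, hefix σ hσ]
    obtain ⟨Pn, Qn, hQ0, hQt, hPQ⟩ := hR K k (algebraicClosure k Ω) t htop (b ^ 2) hb2
    have hPn0 : Pn ≠ 0 := by
      rintro rfl
      rw [eval₂_zero, zero_div] at hPQ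
      exact pow_ne_zero 2 hb0 hPQ
    obtain ⟨h, g', hg'0, hsq⟩ := hSQ (algebraicClosure K (algebraicClosure k Ω))
      (algebraicClosure k Ω) (algebraMap (algebraicClosure K (algebraicClosure k Ω)) _)
      (algebraMap k _ t) (tr_closure t ht) Pn Qn hPn0 hQ0 (by
      intro α
      obtain ⟨Pα, hPα⟩ := hparities α
      obtain ⟨j', hj'⟩ := hT (algebraicClosure K (algebraicClosure k Ω))
        (algebraicClosure k Ω) (algebraMap (algebraicClosure K (algebraicClosure k Ω)) _)
        (algebraMap k _ t) (tr_closure t ht) Pn Qn hPn0 hQ0 α Pα.V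
        (fun a => Pα.hc _ (isAlgebraic_iff_isIntegral.2 a.2)) Pα.hα
      refine ⟨Pα.V, j', fun a => Pα.hc _ (isAlgebraic_iff_isIntegral.2 a.2), Pα.hα, ?_, hj'⟩
      have hx'RS : x' ∈ (Pα.dat U hU G).RS := fun σ _ => (G.toHom σ).commutes x
      have hmem : ∀ i, x' - ι (θ i) ∈ (Pα.dat U hU G).RS := fun i =>
        sub_mem hx'RS ((Pα.dat U hU G).ι_mem (Pα.hLS (hθL i)))
      obtain ⟨n, hn⟩ : ∃ n, (Pα.dat U hU G).Par ((x' - ι (θ i)) / (x' - ι (θ j))) n := by
        obtain ⟨β, hβ⟩ := hratio i j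
        exact (Pα.dat U hU G).exists_par (div_mem (hmem i) (hmem j))
          (div_ne_zero (hne i) (hne j)) hβ
      have hnev := hPα i j hi hj n hn
      have hpe : (Pα.dat U hU G).Par (et ι θ x' r i * et ι θ x' r j) n :=
        par_et (Pα.dat U hU G) θ x' hx'RS r i j hi hj (fun i => Pα.hLS (hθL i))
          (fun i j hij => (hdV' Pα i j hij).mono Pα.hVV) hne hn
      refine Pα.even_of U hU G b hb0 hb2 _ n hnev hpe (ι b * δ i j) hb ?_ j' ?_
      · rw [mul_pow, hδsq, map_pow]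
      · rw [hPQ]
        exact hj')
    have hbL : b ∈ Lc K (algebraicClosure k Ω) k := by
      have hpol : ∀ q : (algebraicClosure K (algebraicClosure k Ω))[X],
          q.eval₂ (algebraMap (algebraicClosure K (algebraicClosure k Ω)) _)
            (algebraMap k (algebraicClosure k Ω) t) ∈ Lc K (algebraicClosure k Ω) k := by
        intro q
        rw [eval₂_eq_sum_range]
        refine sum_mem fun l _ => mul_mem ?_ (pow_mem ?_ _)
        · exact IntermediateField.subset_adjoin k _ (isAlgebraic_iff_isIntegral.2 (q.coeff l).2)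
        · exact (Lc K (algebraicClosure k Ω) k).algebraMap_mem t
      rw [← hPQ] at hsq
      rcases sq_eq_sq_iff_eq_or_eq_neg.1 hsq with h1 | h1
      · rw [h1]
        exact div_mem (hpol _) (hpol _)
      · rw [h1]
        exact neg_mem (div_mem (hpol _) (hpol _))
    intro σ hσ
    have h1 : G.toHom σ (ι b * δ i j) = ι b * δ i j := hb σ hσ
    rw [map_mul, hgι, hfixθ σ hσ b hbL] at h1
    exact mul_left_cancel₀ ((_root_.map_ne_zero _).2 hb0) h1
  refine ⟨X, inferInstance, inferInstance, θ, r, δ, c, hX4,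
    exists_inertia P0.V P0.S P0.ϖ P0.ϖn P0.sq P0.tame θ (fun i => P0.hLS (hθL i))
      (fun i j hij => (hdV' P0 i j hij).mono P0.hVV) c (P0.S.algebraMap_mem _) 1 odd_one hcu0,
    hXev, hθinj, hroots, hc0, hxyM, hδ1, hδ2, ?_⟩
  intro σ _
  obtain ⟨τ, hτV, hτσ⟩ := hTr K k (algebraicClosure k Ω) t ht htop P0.V P0.hc (by
    have h1 := P0.hα
    rwa [sub_zero] at h1) σ
  have hτθ : ∀ i, τ (θ i) = σ (θ i) := fun i => hτσ _ (hθalg i)
  have hfixr : τ (θ r) = θ r := by
    obtain ⟨π1, hπ1⟩ := exists_perm θ hθinj g hroots τ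
    have h1 := typ_fix U hU G P0.V P0.S P0.ϖ P0.ϖ0 P0.ϖn P0.sq P0.tame P0.φ P0.φV
      (P0.hSτ P0.φ P0.φV) τ hτV (P0.hSτ τ hτV) hX4 θ π1 hπ1 x r hr
    rw [hπ1, h1]
  refine ⟨by rw [← hτθ, hfixr], fun π' hπ' i j hi hj => ?_⟩
  have h1 : G.toHom τ (δ i j) = δ (π' i) (π' j) := by
    exact hδ3 τ hτV (P0.hSτ τ hτV) π' (fun i => by rw [hτθ, hπ']) i j hi hj
  have h2 : τ⁻¹ * σ ∈ (Lc K (algebraicClosure k Ω) k).fixingSubgroup := by
    unfold Lc
    rw [IntermediateField.fixingSubgroup, _root_.mem_fixingSubgroup_iff]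
    have hle : IntermediateField.adjoin k {a : algebraicClosure k Ω | IsAlgebraic K a} ≤
        IntermediateField.fixedField (Subgroup.zpowers (τ⁻¹ * σ)) := by
      rw [IntermediateField.adjoin_le_iff]
      intro a ha
      have h3 : (τ⁻¹ * σ) a = a := by
        change τ.symm (σ a) = a
        rw [← hτσ a ha, τ.symm_apply_apply]
      have h4 : ∀ ρ ∈ Subgroup.zpowers (τ⁻¹ * σ), ρ ∈ MulAction.stabilizer
          (algebraicClosure k Ω ≃ₐ[k] algebraicClosure k Ω) a := by
        intro ρ hρ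
        have h5 : Subgroup.zpowers (τ⁻¹ * σ) ≤ MulAction.stabilizer
          (algebraicClosure k Ω ≃ₐ[k] algebraicClosure k Ω) a := by
          rw [Subgroup.zpowers_le]
          exact h3
        exact h5 hρ
      rw [SetLike.mem_coe, IntermediateField.mem_fixedField_iff]
      exact fun ρ hρ => h4 ρ hρ
    intro a ha
    have h5 := hle ha
    rw [IntermediateField.mem_fixedField_iff] at h5
    exact h5 _ (Subgroup.mem_zpowers _)
  have h3 : σ = τ * (τ⁻¹ * σ) := by group
  rw [h3, map_mul]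
  change G.toHom τ (G.toHom (τ⁻¹ * σ) (δ i j)) = _
  rw [hL i j hi hj _ h2, h1]

end Pool.Agent.W623.SecH
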