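import Pool.Agent.W623.SecH.Stm
import Pool.Agent.W623.SecC.Defs

/-!
# All sections modulo 2: statements of further parts

(helper623)  `STABX`: uniqueness of the place of `PLACEX`.  `HENS`: henselian valuation rings extend
uniquely.  `KTSQ`, `REPKT`, `TAMEKT`, `TRANS`, `PLACEKT`: the rational function field `k = K(t)`.
-/

open Polynomial

namespace Pool.Agent.W623.SecH

open Pool.Agent.W623.SecC

universe u v w

/-- the field generated by the constants, `x`, `y` and the square roots of the ratios -/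
def M2x {A : Type u} {M : Type v} [Field A] [Field M] (ι : A →+* M) {X : Type w} (θ : X → A)
    (x y : M) : Subfield M :=
  Subfield.closure (Set.range ι ∪ {x, y} ∪
    {z | ∃ i j, z ^ 2 * (x - ι (θ j)) = x - ι (θ i)})

/-- **uniqueness of the place** -/
def STABX : Prop :=
  ∀ (A : Type u) (M : Type v) [Field A] [CharZero A] [IsAlgClosed A] [Field M] (ι : A →+* M)
    (X : Type w) [Fintype X] [DecidableEq X], Even (Fintype.card X) →
    ∀ θ : X → A, Function.Injective θ → ∀ c : A, c ≠ 0 → ∀ x y : M, y ≠ 0 →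
    ι c * y ^ 2 = ∏ i, (x - ι (θ i)) → (∀ p : Polynomial A, p ≠ 0 → Polynomial.eval₂ ι x p ≠ 0) →
    ∀ (r : X) (δ : X → X → M),
    (∀ i j, i ≠ r → j ≠ r → δ i j ^ 2 = et ι θ x r i * et ι θ x r j) →
    ∀ W W' : ValuationSubring M, Pl ι θ x r δ W → Pl ι θ x r δ W' →
    (∀ z ∈ M2x ι θ x y, z ∈ W ↔ z ∈ W') ∧
    -- the residue field is the field of constants
    (∀ z ∈ M2x ι θ x y, z ∈ W → ∃ a : A, z - ι a ∈ W.nonunits)

/-- **henselian valuation rings extend uniquely** -/
def HENS : Prop :=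
  ∀ (k : Type u) (kb : Type w) [Field k] [CharZero k] [Field kb] [Algebra k kb] [IsAlgClosure k kb]
    (A : ValuationSubring k) [HenselianLocalRing A] (V : ValuationSubring kb),
    (∀ a : k, a ∈ A → algebraMap k kb a ∈ V) →
    (∀ a : k, a ∈ A.nonunits → algebraMap k kb a ∈ V.nonunits) →
    ∀ (τ : kb ≃ₐ[k] kb) (z : kb), τ z ∈ V ↔ z ∈ V

/-- **rational functions with even orders are squares** -/
def KTSQ : Prop :=
  ∀ (C : Type u) (k : Type v) [Field C] [IsAlgClosed C] [Field k] (ι : C →+* k) (t : k),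
    (∀ p : C[X], p ≠ 0 → p.eval₂ ι t ≠ 0) → ∀ P Q : C[X], P ≠ 0 → Q ≠ 0 →
    (∀ α : C, ∃ (V : ValuationSubring k) (j : ℤ), (∀ c, ι c ∈ V) ∧ t - ι α ∈ V.nonunits ∧ Even j ∧
      IsU V (P.eval₂ ι t / Q.eval₂ ι t / (t - ι α) ^ j)) →
    ∃ h g : C[X], g ≠ 0 ∧ P.eval₂ ι t / Q.eval₂ ι t = (h.eval₂ ι t / g.eval₂ ι t) ^ 2

/-- **discreteness** of the places of the rational function field over the constants -/
def TAMEKT : Prop :=
  ∀ (C : Type u) (k : Type v) [Field C] [Field k] (ι : C →+* k) (t : k),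
    (∀ p : C[X], p ≠ 0 → p.eval₂ ι t ≠ 0) → ∀ P Q : C[X], P ≠ 0 → Q ≠ 0 →
    ∀ (α : C) (V : ValuationSubring k), (∀ c, ι c ∈ V) → t - ι α ∈ V.nonunits →
    ∃ j : ℤ, IsU V (P.eval₂ ι t / Q.eval₂ ι t / (t - ι α) ^ j)

/-- **the elements of the field generated by the constants** -/
def REPKT : Prop :=
  ∀ (K : Type) (k : Type u) (kb : Type w) [Field K] [Field k] [Field kb] [Algebra K k]
    [Algebra k kb] [Algebra K kb] [IsScalarTower K k kb] (t : k),
    IntermediateField.adjoin K {t} = (⊤ : IntermediateField K k) →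
    ∀ z ∈ IntermediateField.adjoin k {a : kb | IsAlgebraic K a},
      ∃ P Q : (algebraicClosure K kb)[X], Q ≠ 0 ∧
        Q.eval₂ (algebraMap (algebraicClosure K kb) kb) (algebraMap k kb t) ≠ 0 ∧
        z = P.eval₂ (algebraMap (algebraicClosure K kb) kb) (algebraMap k kb t) /
          Q.eval₂ (algebraMap (algebraicClosure K kb) kb) (algebraMap k kb t)

/-- **the decomposition group of a place above the rational place `t = 0` surjects onto the Galois
group of the constants** -/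
def TRANS : Prop :=
  ∀ (K : Type) (k : Type u) (kb : Type w) [Field K] [CharZero K] [Field k] [Field kb] [Algebra K k]
    [Algebra k kb] [Algebra K kb] [IsScalarTower K k kb] [IsAlgClosure k kb] (t : k),
    Transcendental K t → IntermediateField.adjoin K {t} = (⊤ : IntermediateField K k) →
    ∀ V : ValuationSubring kb, (∀ a : kb, IsAlgebraic K a → a ∈ V) →
    algebraMap k kb t ∈ V.nonunits →
    ∀ σ : kb ≃ₐ[k] kb, ∃ τ : kb ≃ₐ[k] kb, (∀ z, τ z ∈ V ↔ z ∈ V) ∧
      ∀ a : kb, IsAlgebraic K a → τ a = σ a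

/-- **the places of the algebraic closure of `K(t)` above the finite places of the line**, and finer
valuation rings with a Frobenius element -/
def PLACEKT : Prop :=
  ∀ (K : Type) (k : Type u) (kb : Type w) [Field K] [CharZero K] [Field k] [Field kb] [Algebra K k]
    [Algebra k kb] [Algebra K kb] [IsScalarTower K k kb] [IsAlgClosure k kb] (t : k),
    Transcendental K t → IntermediateField.adjoin K {t} = (⊤ : IntermediateField K k) →
    (∃ s : Finset K, Subfield.closure (s : Set K) = ⊤) → ∀ f : K[X], f.Separable →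
    ∀ α : kb, IsAlgebraic K α →
    ∃ (V V' : ValuationSubring kb) (φ : kb ≃ₐ[k] kb) (q : ℕ) (ϖ : k),
      V' ≤ V ∧ (2 : kb)⁻¹ ∈ V' ∧ (∀ x, φ x ∈ V ↔ x ∈ V) ∧ (∀ x, φ x ∈ V' ↔ x ∈ V') ∧ 2 ≤ q ∧
      (∀ x ∈ V', φ x - x ^ q ∈ V'.nonunits) ∧
      (∀ θ θ' : kb, aeval θ f = 0 → aeval θ' f = 0 → θ ≠ θ' → IsU V' (θ - θ')) ∧
      (∀ a : kb, IsAlgebraic K a → a ∈ V) ∧ algebraMap k kb t - α ∈ V.nonunits ∧
      IsU V (algebraMap k kb ϖ / (algebraMap k kb t - α)) ∧ (α = 0 → ϖ = t)

end Pool.Agent.W623.SecH
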