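import Pool.Agent.W623.SecH.StmD

/-! # Canonical signs with two valuation rings: independence -/

namespace Pool.Agent.W623.SecC

open Pool.Agent.W620.SC Polynomial Pool.Agent.W623.SecE Pool.Agent.W623.SecD

universe u v

lemma isU_of_sq {K : Type*} [Field K] {V : ValuationSubring K} {a : K} (h : IsU V (a ^ 2)) :
    IsU V a := by
  have ha0 : a ≠ 0 := by
    rintro rfl
    exact h.1 (zero_pow (by norm_num))
  refine ⟨ha0, mem_of_pow_mem (n := 2) (by norm_num) h.2.1, ?_⟩
  refine mem_of_pow_mem (n := 2) (by norm_num) ?_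
  rw [inv_pow]
  exact h.2.2

namespace Dat

section

variable {k : Type*} {A : Type u} {M : Type v} [Field k] [Field A] [Field M] [Algebra k A]
  {D : Dat k A M}

theorem ell4B [CharZero k] [IsAlgClosed A] [Algebra.IsAlgebraic k A] {V' : ValuationSubring A}
    {q : ℕ} (hD : D.OkB V' q)
    (T : M) (hT : T ∈ D.RS) (htr : ∀ a, D.ι a ≠ T) (N : ℕ) (hN : 0 < N)
    (hφT : D.s (D.φ ^ N) T = T) (ε : Fin 3 → A) (ε0 : A) (hεS : ∀ i, ε i ∈ D.S)
    (hε0S : ε0 ∈ D.S) (hεφ : ∀ i, (D.φ ^ N) (ε i) = ε i) (hε0φ : (D.φ ^ N) ε0 = ε0)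
    (hd0 : ∀ i, IsU V' (ε i - ε0)) (hd : ∀ i j, i ≠ j → IsU V' (ε i - ε j))
    (n : Fin 3 → ℤ) (hn : ∀ i, D.Par ((T - D.ι (ε i)) / (T - D.ι ε0)) (n i))
    (hsum : Even (n 0 + n 1 + n 2)) (i : Fin 3) : Even (n i) := by
  have hne0 : T - D.ι ε0 ≠ 0 := fun h => htr ε0 (sub_eq_zero.1 h).symm
  have hd00 : ∀ r, ε r - ε0 ≠ 0 := fun r => (hd0 r).1
  set e : Fin 3 → A := fun r => (ε r - ε0)⁻¹ with he
  set z : M := (T - D.ι ε0)⁻¹ with hz
  have hze : ∀ r, z - D.ι (e r) = D.ι (-(ε r - ε0)⁻¹) *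
      ((T - D.ι (ε r)) / (T - D.ι ε0)) := by
    intro r
    have h1 : D.ι (ε r) - D.ι ε0 ≠ 0 := by
      rw [← map_sub]
      exact (_root_.map_ne_zero _).2 (hd00 r)
    rw [hz, he, map_neg, map_inv₀, map_sub]
    field_simp
    ring
  have hepar : ∀ r, D.Par (z - D.ι (e r)) (n r) := by
    intro r
    rw [hze]
    have h3 := (Par.const_unit (neg_mem (inv_mem (sub_mem (hεS r) hε0S)))
      ((hd0 r).inv.neg.mono hD.hVV)).mul (hn r)
    rwa [zero_add] at h3
  have hprod := Par.prod (D := D) Finset.univ (fun r => z - D.ι (e r)) _ (fun r _ => hepar r)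
  obtain ⟨w, hw, hwz⟩ := hprod.exists_root (by rw [Fin.sum_univ_three]; exact hsum)
  have hzfix : D.s (D.φ ^ N) z = z := by
    rw [hz, map_inv₀, map_sub, hφT, D.hι, hε0φ]
  have hefix : ∀ r, (D.φ ^ N) (e r) = e r := by
    intro r
    simp only [he]
    rw [map_inv₀, map_sub, hεφ, hε0φ]
  have hsplit : ∀ u : M, D.s (D.φ ^ (N * 2)) u = D.s (D.φ ^ N) (D.s (D.φ ^ N) u) := by
    intro u
    rw [pow_mul, pow_two, map_mul]
    rfl
  have hwfix : D.s (D.φ ^ (N * 2)) w = w := by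
    have h1 : (D.s (D.φ ^ N) w) ^ 2 = w ^ 2 := by
      rw [← map_pow, hwz, map_prod]
      refine Finset.prod_congr rfl fun r _ => ?_
      rw [map_sub, hzfix, D.hι, hefix]
    rw [hsplit]
    rcases sq_eq_sq_iff_eq_or_eq_neg.1 h1 with h4 | h4
    · rw [h4, h4]
    · rw [h4, map_neg, h4, neg_neg]
  refine (D.pw (N * 2)).ellB hD.hA8 V' hD.hVV hD.h2 (q ^ (N * 2))
    (le_trans hD.hq2 (Nat.le_self_pow (by omega) q)) (D.powQB V' hD.hφV' q hD.hq (N * 2)) e
    (fun r => inv_mem (sub_mem (hεS _) hε0S)) (fun r => (hd0 r).2.2) ?_ ?_ z w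
    (inv_mem (sub_mem hT (D.ι_mem hε0S))) hw ?_ hwfix hwz ?_ hD.hroots i (n i) (hepar i)
  · intro r r' hr
    have h3 : e r - e r' = (ε r' - ε r) * ((ε r - ε0)⁻¹ * (ε r' - ε0)⁻¹) := by
      simp only [he]
      have h4 := hd00 r
      have h5 := hd00 r'
      field_simp
      ring
    rw [h3]
    exact (hd _ _ hr.symm).mul ((hd0 r).inv.mul (hd0 r').inv)
  · intro r
    change (D.φ ^ (N * 2)) (e r) = e r
    rw [pow_mul, pow_two]
    change (D.φ ^ N) ((D.φ ^ N) (e r)) = e r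
    rw [hefix, hefix]
  · change D.s (D.φ ^ (N * 2)) z = z
    rw [hsplit, hzfix, hzfix]
  · intro a h
    refine htr (a⁻¹ + ε0) ?_
    change D.ι a = z at h
    rw [map_add, map_inv₀, h, hz, inv_inv, sub_add_cancel]

end

variable {k : Type*} {A : Type u} {M : Type v} [Field k] [Field A] [Field M] [Algebra k A]
  {D : Dat k A M} {Y : Type*} [Fintype Y] [DecidableEq Y] (B : D.Gm Y)

namespace Gm

variable [CharZero k] [IsAlgClosed A] [Algebra.IsAlgebraic k A]

/-- the parity does not depend on `l` -/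
theorem H_indepB {V' : ValuationSubring A} {q : ℕ} (hD : D.OkB V' q)
    (hed' : ∀ i j, i ≠ j → IsU V' (B.e i - B.e j)) {i j l l' : Y} (hij : i ≠ j) (hil : i ≠ l) (hjl : j ≠ l)
    (hil' : i ≠ l') (hjl' : j ≠ l') : B.H i j l = B.H i j l' := by
  by_cases hll : l = l'
  · rw [hll]
  have hch : CharZero A := charZero_of_injective_algebraMap (algebraMap k A).injective
  have h2 : IsU V' (2 : A) := by
    refine ⟨two_ne_zero, ?_, hD.h2⟩
    have h3 : (2 : A) = 1 + 1 := by norm_num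
    rw [h3]
    exact add_mem (one_mem _) (one_mem _)
  obtain ⟨n, hn⟩ := B.exh i j l hil hjl
  obtain ⟨n', hn'⟩ := B.exh i j l' hil' hjl'
  rw [B.H_eq hil hjl hn, B.H_eq hil' hjl' hn']
  obtain ⟨a, haS, -, ha, haφ⟩ := B.exists_sqrt hil.symm
  have haU : IsU V' a := isU_of_sq (by rw [ha]; exact hed' _ _ hil.symm)
  obtain ⟨b, hbS, -, hb, hbφ⟩ := B.exists_sqrt hjl.symm
  have hbU : IsU V' b := isU_of_sq (by rw [hb]; exact hed' _ _ hjl.symm)
  obtain ⟨a', haS', -, ha', haφ'⟩ := B.exists_sqrt hil'.symm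
  have haU' : IsU V' a' := isU_of_sq (by rw [ha']; exact hed' _ _ hil'.symm)
  obtain ⟨b', hbS', -, hb', hbφ'⟩ := B.exists_sqrt hjl'.symm
  have hbU' : IsU V' b' := isU_of_sq (by rw [hb']; exact hed' _ _ hjl'.symm)
  set T : M := B.γ j / B.γ i with hT
  have hγi := B.ne0 i
  have hγj := B.ne0 j
  -- `T` is transcendental
  have htr : ∀ c, D.ι c ≠ T := by
    intro c hc
    have h3 : D.ι c * B.γ i = B.γ j := by
      rw [hc, hT]
      field_simp
    have h5 : (B.z - D.ι (B.e i)) * D.ι (c ^ 2) = B.z - D.ι (B.e j) := by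
      rw [B.hzγ, B.hzγ, ← h3, map_pow]
      ring
    by_cases hc1 : c ^ 2 = 1
    · rw [hc1, map_one, mul_one] at h5
      have h6 : D.ι (B.e i) = D.ι (B.e j) := by linear_combination -h5
      exact (B.hed i j hij).1 (sub_eq_zero.2 (D.ι.injective h6))
    · apply B.htr ((B.e j - B.e i * c ^ 2) / (1 - c ^ 2))
      have h7 : D.ι (1 - c ^ 2) ≠ 0 := (_root_.map_ne_zero _).2 (sub_ne_zero.2 (Ne.symm hc1))
      rw [map_div₀, div_eq_iff h7, map_sub, map_sub, map_mul, map_one]
      linear_combination h5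
  have hdiff : ∀ c d : A, c ≠ 0 → T - D.ι (d / c) =
      (D.ι c * B.γ j - D.ι d * B.γ i) / (D.ι c * B.γ i) := by
    intro c d hc
    have h3 : D.ι c ≠ 0 := (_root_.map_ne_zero _).2 hc
    rw [hT, map_div₀]
    field_simp
  have hlin : ∀ c d : A, c ≠ 0 → D.ι c * B.γ j - D.ι d * B.γ i ≠ 0 := by
    intro c d hc h
    apply htr (d / c)
    have h3 := hdiff c d hc
    rw [h, zero_div, sub_eq_zero] at h3
    exact h3.symm
  -- sums and differences of units
  have hU : ∀ (i j l : Y) (a b : A), i ≠ j → IsU V' a → IsU V' b → a ^ 2 = B.e l - B.e i →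
      b ^ 2 = B.e l - B.e j → IsU V' (a + b) ∧ IsU V' (a - b) := by
    intro i j l a b hij haU hbU ha hb
    have h3 : IsU V' ((a + b) * (a - b)) := by
      have h5 : (a + b) * (a - b) = B.e j - B.e i := by linear_combination ha - hb
      rw [h5]
      exact hed' _ _ hij.symm
    refine ⟨isU_of_mul (add_mem haU.2.1 hbU.2.1) (sub_mem haU.2.1 hbU.2.1) h3, ?_⟩
    rw [mul_comm] at h3
    exact isU_of_mul (sub_mem haU.2.1 hbU.2.1) (add_mem haU.2.1 hbU.2.1) h3
  have hU1 := hU i j l a b hij haU hbU ha hb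
  have hU2 := hU i j l' a' b' hij haU' hbU' ha' hb'
  -- the parities of the four linear forms
  have hp1 := B.par_lin i j l hij hil hjl a b haS hbS ha hb (h2.mono hD.hVV)
    (hU1.1.mono hD.hVV) (hlin _ _ haU.1) n hn
  have hp2 := B.par_lin i j l hij hil hjl a (-b) haS (neg_mem hbS) ha (by rw [neg_sq]; exact hb)
    (h2.mono hD.hVV) (by rw [← sub_eq_add_neg]; exact hU1.2.mono hD.hVV) (hlin _ _ haU.1) n hn
  have hp3 := B.par_lin i j l' hij hil' hjl' a' b' haS' hbS' ha' hb' (h2.mono hD.hVV)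
    (hU2.1.mono hD.hVV) (hlin _ _ haU'.1) n'
    hn'
  have hp4 := B.par_lin i j l' hij hil' hjl' a' (-b') haS' (neg_mem hbS') ha'
    (by rw [neg_sq]; exact hb') (h2.mono hD.hVV) (by rw [← sub_eq_add_neg]; exact hU2.2.mono hD.hVV) (hlin _ _ haU'.1) n' hn'
  have hquot : ∀ (c d c' d' : A) (m m' : ℤ), c ∈ D.S → c' ∈ D.S → IsU D.V c → IsU D.V c' →
      D.Par ((D.ι c * B.γ j - D.ι d * B.γ i) * (B.γ i - B.γ j)) m →
      D.Par ((D.ι c' * B.γ j - D.ι d' * B.γ i) * (B.γ i - B.γ j)) m' →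
      D.Par ((T - D.ι (d / c)) / (T - D.ι (d' / c'))) (m - m') := by
    intro c d c' d' m m' hcS hcS' hc hc' hm hm'
    have h3 := (Par.const_unit (div_mem hcS' hcS) (hc'.div hc)).mul (hm.div hm')
    rw [zero_add] at h3
    have h5 : D.ι (c' / c) * ((D.ι c * B.γ j - D.ι d * B.γ i) * (B.γ i - B.γ j) /
        ((D.ι c' * B.γ j - D.ι d' * B.γ i) * (B.γ i - B.γ j))) =
        (T - D.ι (d / c)) / (T - D.ι (d' / c')) := by
      rw [hdiff c d hc.1, hdiff c' d' hc'.1, map_div₀]
      have h6 := B.sub_ne hij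
      have h7 := hlin c' d' hc'.1
      have h8 : D.ι c ≠ 0 := (_root_.map_ne_zero _).2 hc.1
      have h9 : D.ι c' ≠ 0 := (_root_.map_ne_zero _).2 hc'.1
      field_simp
    rwa [h5] at h3
  have hTRS : T ∈ D.RS := div_mem (B.hγ _) (B.hγ _)
  set N := orderOf B.π * 2 with hN
  have hN0 : 0 < N := by
    have := orderOf_pos B.π
    omega
  have hTφ : D.s (D.φ ^ N) T = T := by
    rw [hT, map_div₀, B.γfix, B.γfix]
  have htU : IsU V' (b / a) := hbU.div haU
  have htU' : IsU V' (b' / a') := hbU'.div haU'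
  -- differences of the branch points
  have hprod : IsU V' ((b' / a' - b / a) * (b' / a' + b / a)) := by
    have h3 : (b' / a' - b / a) * (b' / a' + b / a) =
        (B.e l' - B.e l) * (B.e j - B.e i) / (a ^ 2 * a' ^ 2) := by
      have h5 := haU.1
      have h6 := haU'.1
      field_simp
      linear_combination b' ^ 2 * ha + (B.e l - B.e i) * hb' - a' ^ 2 * hb -
        (B.e l - B.e j) * ha'
    rw [h3]
    exact ((hed' _ _ (Ne.symm hll)).mul (hed' _ _ hij.symm)).div ((haU.pow 2).mul (haU'.pow 2))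
  have hm1 : IsU V' (b' / a' - b / a) :=
    isU_of_mul (sub_mem htU'.2.1 htU.2.1) (add_mem htU'.2.1 htU.2.1) hprod
  have hm2 : IsU V' (b' / a' + b / a) := by
    rw [mul_comm] at hprod
    exact isU_of_mul (add_mem htU'.2.1 htU.2.1) (sub_mem htU'.2.1 htU.2.1) hprod
  have hfin := ell4B hD T hTRS htr N hN0 hTφ ![-b / a, b' / a', -b' / a'] (b / a) ?_
    (div_mem hbS haS) ?_ ?_ ?_ ?_ ![(-1 - n) - (-1 - n), (-1 - n') - (-1 - n),
      (-1 - n') - (-1 - n)] ?_ ?_ 1
  · have h3 := zmod2_of_even hfin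
    simp only [Matrix.cons_val_one, Matrix.cons_val_zero] at h3
    push_cast at h3
    linear_combination h3
  · intro r
    fin_cases r
    · exact div_mem (neg_mem hbS) haS
    · exact div_mem hbS' haS'
    · exact div_mem (neg_mem hbS') haS'
  · intro r
    fin_cases r
    · change (D.φ ^ N) (-b / a) = _
      rw [map_div₀, map_neg, haφ, hbφ]
      rfl
    · change (D.φ ^ N) (b' / a') = _
      rw [map_div₀, haφ', hbφ']
      rfl
    · change (D.φ ^ N) (-b' / a') = _
      rw [map_div₀, map_neg, haφ', hbφ']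
      rfl
  · rw [map_div₀, haφ, hbφ]
  · intro r
    fin_cases r
    · change IsU V' (-b / a - b / a)
      have h3 : -b / a - b / a = -(2 * (b / a)) := by ring
      rw [h3]
      exact (h2.mul htU).neg
    · exact hm1
    · change IsU V' (-b' / a' - b / a)
      have h3 : -b' / a' - b / a = -(b' / a' + b / a) := by ring
      rw [h3]
      exact hm2.neg
  · have h01 : IsU V' (-b / a - b' / a') := by
      have h3 : -b / a - b' / a' = -(b' / a' + b / a) := by ring
      rw [h3]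
      exact hm2.neg
    have h02 : IsU V' (-b / a - -b' / a') := by
      have h3 : -b / a - -b' / a' = b' / a' - b / a := by ring
      rw [h3]
      exact hm1
    have h12 : IsU V' (b' / a' - -b' / a') := by
      have h3 : b' / a' - -b' / a' = 2 * (b' / a') := by ring
      rw [h3]
      exact h2.mul htU'
    have hneg : ∀ u v : A, IsU V' (u - v) → IsU V' (v - u) := fun u v h => by
      rw [← neg_sub]
      exact h.neg
    intro r r' hr
    fin_cases r <;> fin_cases r'
    · exact absurd rfl hr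
    · exact h01
    · exact h02
    · exact hneg _ _ h01
    · exact absurd rfl hr
    · exact h12
    · exact hneg _ _ h02
    · exact hneg _ _ h12
    · exact absurd rfl hr
  · intro r
    fin_cases r
    · exact hquot a (-b) a b _ _ haS haS (haU.mono hD.hVV) (haU.mono hD.hVV) hp2 hp1
    · exact hquot a' b' a b _ _ haS' haS (haU'.mono hD.hVV) (haU.mono hD.hVV) hp3 hp1
    · exact hquot a' (-b') a b _ _ haS' haS (haU'.mono hD.hVV) (haU.mono hD.hVV) hp4 hp1
  · simp only [Matrix.cons_val_one, Matrix.cons_val_zero, Matrix.cons_val]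
    exact ⟨n - n', by ring⟩

end Gm

end Dat

end Pool.Agent.W623.SecC
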