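import Pool.Agent.W623.SecF.MainC
import Pool.Agent.W623.SecH.Sgn
import Pool.Agent.W623.SecH.Can
import Pool.Agent.W623.SecH.Inert

/-! # The places of `K(t)` -/

namespace Pool.Agent.W623.SecH

open Pool.Agent.W620.SC Polynomial IntermediateField Pool.Agent.W623.SecD Pool.Agent.W623.SecC

universe u v w

lemma isU_zpow {K : Type*} [Field K] {V : ValuationSubring K} {a : K} (h : IsU V a) (n : ℤ) :
    IsU V (a ^ n) := by
  rcases Int.eq_nat_or_neg n with ⟨m, rfl | rfl⟩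
  · rw [zpow_natCast]
    exact h.pow m
  · rw [zpow_neg, zpow_natCast]
    exact (h.pow m).inv

section PD

variable (K : Type) {k : Type u} (kb : Type w) [Field K] [Field k] [Field kb] [Algebra K k]
  [Algebra k kb] [Algebra K kb]

/-- the field generated by the constants -/
noncomputable def Lc (k : Type u) [Field k] [Algebra k kb] : IntermediateField k kb :=
  IntermediateField.adjoin k {a : kb | IsAlgebraic K a}

/-- the data at a place of `K(t)` -/
structure PD (t : k) (f : K[X]) (α : kb) where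
  V : ValuationSubring kb
  V' : ValuationSubring kb
  φ : kb ≃ₐ[k] kb
  q : ℕ
  ϖ : k
  S : IntermediateField k kb
  hVV : V' ≤ V
  h2 : (2 : kb)⁻¹ ∈ V'
  φV : ∀ x, φ x ∈ V ↔ x ∈ V
  φV' : ∀ x, φ x ∈ V' ↔ x ∈ V'
  hq2 : 2 ≤ q
  hq : ∀ x ∈ V', φ x - x ^ q ∈ V'.nonunits
  hd : ∀ θ θ' : kb, aeval θ f = 0 → aeval θ' f = 0 → θ ≠ θ' → IsU V' (θ - θ')
  hc : ∀ a : kb, IsAlgebraic K a → a ∈ V
  hα : algebraMap k kb t - α ∈ V.nonunits
  hϖα : IsU V (algebraMap k kb ϖ / (algebraMap k kb t - α))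
  hϖt : α = 0 → ϖ = t
  ϖ0 : ϖ ≠ 0
  ϖn : algebraMap k kb ϖ ∈ V.nonunits
  hLS : Lc K kb k ≤ S
  hSτ : ∀ τ : kb ≃ₐ[k] kb, (∀ x, τ x ∈ V ↔ x ∈ V) → ∀ x, τ x ∈ S ↔ x ∈ S
  sq : ∀ η ∈ S, IsU V η → ∀ ρ : kb, ρ ^ 2 = η → ρ ∈ S
  tame : ∀ c ∈ S, c ≠ 0 → ∃ j : ℤ, IsU V (c / algebraMap k kb ϖ ^ j)

variable {K kb} [IsScalarTower K k kb]

lemma alg_map (τ : kb ≃ₐ[k] kb) (a : kb) : IsAlgebraic K (τ a) ↔ IsAlgebraic K a :=
  isAlgebraic_algHom_iff ((τ : kb →ₐ[k] kb).restrictScalars K) τ.injective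

lemma Lc_stable (τ : kb ≃ₐ[k] kb) (z : kb) : τ z ∈ Lc K kb k ↔ z ∈ Lc K kb k := by
  have h1 : (Lc K kb k).map (τ : kb →ₐ[k] kb) = Lc K kb k := by
    unfold Lc
    rw [IntermediateField.adjoin_map]
    congr 1
    ext a
    constructor
    · rintro ⟨b, h1, rfl⟩
      exact (alg_map τ b).2 h1
    · intro h1
      refine ⟨τ.symm a, ?_, τ.apply_symm_apply a⟩
      exact (alg_map (K := K) τ.symm a).2 h1
  constructor
  · intro h3
    rw [← h1] at h3
    obtain ⟨z', h5, h6⟩ := h3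
    have h7 : z' = z := τ.injective h6
    rw [← h7]
    exact h5
  · intro h3
    rw [← h1]
    exact ⟨z, h3, rfl⟩

lemma tr_closure (t : k) (ht : Transcendental K t) (p : (algebraicClosure K kb)[X]) (hp : p ≠ 0) :
    p.eval₂ (algebraMap (algebraicClosure K kb) kb) (algebraMap k kb t) ≠ 0 := by
  intro h
  have h1 : IsAlgebraic (algebraicClosure K kb) (algebraMap k kb t) := ⟨p, hp, h⟩
  have h2 : IsAlgebraic K (algebraMap k kb t) := h1.restrictScalars K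
  exact ht ((isAlgebraic_algHom_iff (IsScalarTower.toAlgHom K k kb)
    (algebraMap k kb).injective).1 h2)

theorem exists_PD [CharZero K] [CharZero k] [IsAlgClosure k kb] (hP : PLACEKT.{u, w})
    (hR : REPKT.{u, w})
    (hT : TAMEKT.{w, w}) (t : k) (ht : Transcendental K t)
    (htop : IntermediateField.adjoin K {t} = (⊤ : IntermediateField K k))
    (hfg : ∃ s : Finset K, Subfield.closure (s : Set K) = ⊤) (f : K[X]) (hf : f.Separable)
    (α : kb) (hα : IsAlgebraic K α) : Nonempty (PD K kb t f α) := by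
  obtain ⟨V, V', φ, q, ϖ, hVV, h2, φV, φV', hq2, hq, hd, hc, htα, hϖα, hϖt⟩ :=
    hP K k kb t ht htop hfg f hf α hα
  have hp0 : algebraMap k kb ϖ ≠ 0 := fun h => hϖα.1 (by rw [h, zero_div])
  have ht0 : algebraMap k kb t - α ≠ 0 := fun h => hϖα.1 (by rw [h, div_zero])
  have hϖ0 : ϖ ≠ 0 := fun h => hp0 (by rw [h, map_zero])
  have hϖn : algebraMap k kb ϖ ∈ V.nonunits := by
    have h1 : algebraMap k kb ϖ = (algebraMap k kb ϖ / (algebraMap k kb t - α)) *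
        (algebraMap k kb t - α) := by
      field_simp
    rw [h1]
    exact nonunit_mul hϖα.2.1 htα
  have hL : ∀ c ∈ Lc K kb k, c ≠ 0 → ∃ j : ℤ, IsU V (c / algebraMap k kb ϖ ^ j) := by
    intro c hc' hc0
    obtain ⟨P, Q, hQ0, hQt, hcPQ⟩ := hR K k kb t htop c hc'
    have hP0 : P ≠ 0 := by
      rintro rfl
      rw [eval₂_zero, zero_div] at hcPQ
      exact hc0 hcPQ
    obtain ⟨j, hj⟩ := hT (algebraicClosure K kb) kb (algebraMap (algebraicClosure K kb) kb)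
      (algebraMap k kb t) (tr_closure t ht) P Q hP0 hQ0 ⟨α, isAlgebraic_iff_isIntegral.1 hα⟩ V
      (fun a => hc _ (isAlgebraic_iff_isIntegral.2 a.2)) htα
    rw [← hcPQ] at hj
    refine ⟨j, ?_⟩
    have h1 : c / algebraMap k kb ϖ ^ j = (c / (algebraMap k kb t - α) ^ j) *
        ((algebraMap k kb ϖ / (algebraMap k kb t - α)) ^ j)⁻¹ := by
      rw [div_zpow]
      have h3 : (algebraMap k kb t - α) ^ j ≠ 0 := zpow_ne_zero _ ht0
      have h4 : algebraMap k kb ϖ ^ j ≠ 0 := zpow_ne_zero _ hp0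
      field_simp
    rw [h1]
    exact IsU.mul hj (isU_zpow hϖα j).inv
  obtain ⟨S, hLS, hSτ, hsq, htame⟩ := exists_S V (hVV h2) ϖ hϖ0 (Lc K kb k) hL
  exact ⟨{ V := V, V' := V', φ := φ, q := q, ϖ := ϖ, S := S, hVV := hVV, h2 := h2, φV := φV,
           φV' := φV', hq2 := hq2, hq := hq, hd := hd, hc := hc, hα := htα, hϖα := hϖα,
           hϖt := hϖt, ϖ0 := hϖ0, ϖn := hϖn, hLS := hLS,
           hSτ := fun τ hτ => hSτ τ hτ (Lc_stable τ), sq := hsq, tame := htame }⟩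

end PD

end Pool.Agent.W623.SecH
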