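import Pool.Agent.W623.SecH.Stm2

/-!
# All sections modulo 2: uniqueness of the branch point, and the rational points

(helper623)
-/

open Polynomial

namespace Pool.Agent.W623.SecH

open Pool.Agent.W623.SecC

universe u v w

/-- **uniqueness of the branch point**: `g` is the action of an element `τ` of the inertia group -/
def UNIQX : Prop :=
  ∀ (A : Type u) (M : Type v) [Field A] [CharZero A] [IsAlgClosed A] [Field M] (ι : A →+* M)
    (X : Type w) [Fintype X] [DecidableEq X], 4 ≤ Fintype.card X → Even (Fintype.card X) →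
    ∀ θ : X → A, Function.Injective θ → ∀ c : A, c ≠ 0 → ∀ x y : M, y ≠ 0 →
    ι c * y ^ 2 = ∏ i, (x - ι (θ i)) →
    (∀ i j, ∃ α : M, α ^ 2 = (x - ι (θ i)) / (x - ι (θ j))) →
    ∀ (g : M ≃+* M) (τ : A ≃+* A), (∀ a, g (ι a) = ι (τ a)) → g x = x → g y = y →
    (∀ i, τ (θ i) = θ i) → (∀ i j, i ≠ j → ∃ b : A, b ^ 2 = θ i - θ j ∧ τ b = b) →
    (∃ b : A, b ^ 2 = c ∧ τ b = -b) →
    ∀ (r r' : X) (W W' : ValuationSubring M),
    (∀ a, ι a ∈ W) → x - ι (θ r) ∈ W.nonunits → (∀ z ∈ M2x ι θ x y, g z ∈ W ↔ z ∈ W) →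
    (∀ a, ι a ∈ W') → x - ι (θ r') ∈ W'.nonunits → (∀ z ∈ M2x ι θ x y, g z ∈ W' ↔ z ∈ W') →
    r = r'

/-- **the rational points** of the curve `t y² = f(x)` over `K(t)` -/
def POINTS : Prop :=
  ∀ (K : Type) (k : Type u) [Field K] [CharZero K] [Field k] [Algebra K k] (t : k),
    Transcendental K t → IntermediateField.adjoin K {t} = (⊤ : IntermediateField K k) →
    ∀ f : K[X], f.Separable → 3 ≤ f.natDegree → ∀ x y : k, t * y ^ 2 = aeval x f →
    y = 0 ∧ ∃ θ : K, f.eval θ = 0 ∧ algebraMap K k θ = x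

end Pool.Agent.W623.SecH
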