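import Pool.Agent.W623.SecH.Stm
import Pool.Agent.W623.SecF.TypeB
import Pool.Agent.W623.SecE.Sym

/-!
# All sections modulo 2: abstract statements

(helper623)  `SIGN`: the canonical square roots.  `EVENB`: the parities at a place of even valuation.
-/

open Polynomial

namespace Pool.Agent.W623.SecC

open Pool.Agent.W623.SecD Pool.Agent.W623.SecH

universe u v w

/-- the hypotheses on the data, with two valuation rings -/
structure Dat.OkB {k : Type*} {A : Type u} {M : Type v} [Field k] [Field A] [Field M] [Algebra k A]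
    (D : Dat k A M) (V' : ValuationSubring A) (q : ℕ) : Prop where
  hA8 : PartA8b.{u, v}
  hVV : V' ≤ D.V
  hφV' : ∀ x, D.φ x ∈ V' ↔ x ∈ V'
  h2 : (2 : A)⁻¹ ∈ V'
  hq2 : 2 ≤ q
  hq : ∀ x ∈ V', D.φ x - x ^ q ∈ V'.nonunits
  hroots : D.HasRoots

/-- **the canonical square roots** -/
def SIGN : Prop :=
  ∀ (k : Type w) (A : Type u) (M : Type v) [Field k] [CharZero k] [Field A] [Field M] [Algebra k A]
    [IsAlgClosed A] [Algebra.IsAlgebraic k A] (D : Dat k A M) (V' : ValuationSubring A) (q : ℕ),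
    D.OkB V' q → D.HasSq → ∀ (X : Type u) [Fintype X] [DecidableEq X], 4 ≤ Fintype.card X →
    ∀ (θ : X → A), (∀ i, θ i ∈ D.S) → (∀ i j, i ≠ j → IsU V' (θ i - θ j)) →
    ∀ π : Equiv.Perm X, (∀ i, D.φ (θ i) = θ (π i)) →
    ∀ x : M, (∀ σ, D.s σ x = x) → (∀ a, D.ι a ≠ x) → ∀ r : X, D.Typ x θ r →
    ∃ δ : X → X → M,
      (∀ i j, i ≠ r → j ≠ r → δ i j ^ 2 = et D.ι θ x r i * et D.ι θ x r j) ∧
      (∀ i j l, i ≠ r → j ≠ r → l ≠ r → δ i j * δ j l = et D.ι θ x r j * δ i l) ∧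
      ∀ τ : A ≃ₐ[k] A, (∀ z, τ z ∈ D.V ↔ z ∈ D.V) → (∀ z, τ z ∈ D.S ↔ z ∈ D.S) →
        ∀ π' : Equiv.Perm X, (∀ i, τ (θ i) = θ (π' i)) → ∀ i j, i ≠ r → j ≠ r →
          D.s τ (δ i j) = δ (π' i) (π' j)

/-- **even parities** -/
def EVENB : Prop :=
  ∀ (k : Type w) (A : Type u) (M : Type v) [Field k] [CharZero k] [Field A] [Field M] [Algebra k A]
    [IsAlgClosed A] [Algebra.IsAlgebraic k A] (D : Dat k A M) (V' : ValuationSubring A) (q : ℕ),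
    D.OkB V' q → ∀ (X : Type u) [Fintype X] [DecidableEq X], Even (Fintype.card X) →
    ∀ (θ : X → A), (∀ i, θ i ∈ D.S) → (∀ i j, i ≠ j → IsU V' (θ i - θ j)) →
    ∀ π : Equiv.Perm X, (∀ i, D.φ (θ i) = θ (π i)) →
    ∀ x y : M, (∀ σ, D.s σ x = x) → (∀ σ, D.s σ y = y) → y ≠ 0 → ∀ c ∈ D.S, ∀ jc : ℤ, Even jc →
    IsU D.V (c / D.p ^ jc) → D.ι c * y ^ 2 = ∏ i, (x - D.ι (θ i)) → (∀ a, D.ι a ≠ x) →
    (∀ i j, ∃ α : M, α ^ 2 = (x - D.ι (θ i)) / (x - D.ι (θ j))) →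
    ∀ (i j : X) (n : ℤ), D.Par ((x - D.ι (θ i)) / (x - D.ι (θ j))) n → Even n

end Pool.Agent.W623.SecC
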